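import Pool.Agent.H30.KL.Gen.Defs

/-!
# Matchings of vertices (MP_a7460d_ag, necessity of the class condition)

Vertices are the positions `a` of `u`, with value `u a`.  A matching `s : A → B` moves its points to the right and up.
`Lt u A s t`: at the rightmost point where `s` and `t` differ, `t` has the larger value.
-/

set_option autoImplicit false

open Pool.Agent.H30.KL

namespace Pool.Agent.H44.KL

variable {n : ℕ}

/-- a bijection `A → B` all of whose proper steps go right and up -/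
structure Mt (u : Equiv.Perm (Fin n)) (A B : Finset (Fin n)) (s : Fin n → Fin n) : Prop where
  bij : Set.BijOn s ↑A ↑B
  up : ∀ a ∈ A, s a ≠ a → a < s a ∧ u a < u (s a)

/-- `t` is larger than `s`: columns right to left, larger value first -/
def Lt (u : Equiv.Perm (Fin n)) (A : Finset (Fin n)) (s t : Fin n → Fin n) : Prop :=
  ∃ d ∈ A, (∀ y ∈ A, d < y → t y = s y) ∧ u (s d) < u (t d)

/-- the rank conditions for the boxes contained in `(i,j)` except for `(i,j)` itself -/
def Rk (u v : Equiv.Perm (Fin n)) (i j : Fin n) (A : Finset (Fin n)) (s : Fin n → Fin n) : Prop :=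
  ∀ i' j' : Fin n, i ≤ i' → j' ≤ j → (i' ≠ i ∨ j' ≠ j) →
    (A.filter fun a => a ≤ j' ∧ i' ≤ u (s a)).card ≤ rk v i' j'

/-- `μ` is the largest matching of a minor `[F;G]` (rows of the vertices `F`, columns `G`) of the box `(i,j)` -/
structure Ldr (u v : Equiv.Perm (Fin n)) (i j : Fin n) (G F : Finset (Fin n)) (μ : Fin n → Fin n) :
    Prop where
  hF : ∀ x ∈ F, i ≤ u x
  hG : ∀ y ∈ G, y ≤ j
  card : G.card = rk v i j + 1
  mt : Mt u G F μ
  max : ∀ t, Mt u G F t → ¬ Lt u G μ t

variable {u v : Equiv.Perm (Fin n)} {i j : Fin n} {A B C R : Finset (Fin n)} {s t : Fin n → Fin n}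

theorem Mt.mem (h : Mt u A B s) {a : Fin n} (ha : a ∈ A) : s a ∈ B := h.bij.mapsTo ha

theorem Mt.inj (h : Mt u A B s) {a b : Fin n} (ha : a ∈ A) (hb : b ∈ A) (hab : s a = s b) : a = b :=
  h.bij.injOn ha hb hab

theorem Mt.surj (h : Mt u A B s) {b : Fin n} (hb : b ∈ B) : ∃ a ∈ A, s a = b := by
  obtain ⟨a, ha, hab⟩ := h.bij.surjOn hb
  exact ⟨a, ha, hab⟩

theorem Mt.card (h : Mt u A B s) : A.card = B.card := by
  classical
  have h1 : A.image s = B := by
    ext b
    rw [Finset.mem_image]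
    constructor
    · rintro ⟨a, ha, rfl⟩
      exact h.mem ha
    · intro hb
      obtain ⟨a, ha, hab⟩ := h.surj hb
      exact ⟨a, ha, hab⟩
  rw [← h1, Finset.card_image_of_injOn h.bij.injOn]

theorem Mt.le (h : Mt u A B s) {a : Fin n} (ha : a ∈ A) : a ≤ s a := by
  by_cases h1 : s a = a
  · exact h1.ge
  · exact (h.up a ha h1).1.le

theorem Mt.le_val (h : Mt u A B s) {a : Fin n} (ha : a ∈ A) : u a ≤ u (s a) := by
  by_cases h1 : s a = a
  · rw [h1]
  · exact (h.up a ha h1).2.le

/-- a surjective map from `A` onto `B` with `|A| = |B|` -/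
theorem Mt.of_surj (hc : A.card = B.card) (hs : ∀ b ∈ B, ∃ a ∈ A, s a = b)
    (hup : ∀ a ∈ A, s a ≠ a → a < s a ∧ u a < u (s a)) : Mt u A B s := by
  classical
  have h1 : B ⊆ A.image s := by
    intro b hb
    obtain ⟨a, ha, hab⟩ := hs b hb
    exact Finset.mem_image.2 ⟨a, ha, hab⟩
  have h2 : A.image s = B := by
    refine (Finset.eq_of_subset_of_card_le h1 ?_).symm
    rw [← hc]
    exact Finset.card_image_le
  have h3 : Set.InjOn s ↑A := by
    rw [← Finset.card_image_iff, h2, hc]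
  refine ⟨⟨?_, h3, ?_⟩, hup⟩
  · intro a ha
    have := Finset.mem_image_of_mem s (Finset.mem_coe.1 ha)
    rw [h2] at this
    exact this
  · intro b hb
    obtain ⟨a, ha, hab⟩ := hs b hb
    exact ⟨a, ha, hab⟩

/-- two matchings which are both maximal agree -/
theorem eqOn_of_max (hs : ¬ Lt u A s t) (ht : ¬ Lt u A t s) : ∀ a ∈ A, s a = t a := by
  classical
  by_contra hne
  push Not at hne
  have hD : (A.filter fun a => s a ≠ t a).Nonempty := by
    obtain ⟨a, ha, hab⟩ := hne
    exact ⟨a, Finset.mem_filter.2 ⟨ha, hab⟩⟩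
  set d := (A.filter fun a => s a ≠ t a).max' hD with hd
  have hdm : d ∈ A.filter fun a => s a ≠ t a := Finset.max'_mem _ hD
  rw [Finset.mem_filter] at hdm
  have hr : ∀ y ∈ A, d < y → s y = t y := by
    intro y hy hdy
    by_contra h1
    have h2 : y ≤ d := Finset.le_max' _ y (Finset.mem_filter.2 ⟨hy, h1⟩)
    exact absurd hdy (not_lt.2 h2)
  rcases lt_trichotomy (u (s d)) (u (t d)) with h1 | h1 | h1
  · exact hs ⟨d, hdm.1, fun y hy h2 => (hr y hy h2).symm, h1⟩
  · exact hdm.2 (u.injective h1)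
  · exact ht ⟨d, hdm.1, fun y hy h2 => hr y hy h2, h1⟩

/-- a linking is a matching -/
theorem mt_of_link {σ : Fin n → Fin n} (h : Link u v i j C R σ) :
    Mt u (NWs u i j ∪ C) (NWs u i j ∪ R) σ :=
  ⟨h.bij, fun a ha hne => ⟨(h.up a ha hne).1, (h.up a ha hne).2.1⟩⟩

theorem rk_of_link {σ : Fin n → Fin n} (h : Link u v i j C R σ) : Rk u v i j (NWs u i j ∪ C) σ :=
  h.rank

end Pool.Agent.H44.KL
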