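import Pool.Agent.H44.KL.Exch

/-!
# Full and free paths
-/

set_option autoImplicit false

open Pool.Agent.H30.KL

namespace Pool.Agent.H44.KL

variable {n : ℕ}

/-- the path of `σ` from `c` passes the box `(i',j')` and all its steps are steps of `μ` -/
def Full (u : Equiv.Perm (Fin n)) (A : Finset (Fin n)) (σ : Fin n → Fin n) (i' j' : Fin n)
    (G : Finset (Fin n)) (μ : Fin n → Fin n) (c : Fin n) : Prop :=
  u c < i' ∧ j' < en A σ c ∧ ∀ y ∈ pth A σ c, y ≠ en A σ c → y ∈ G ∧ μ y = σ y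

/-- the path of `σ` from `c` starts and ends in the box `(i',j')` and all its points are fixed points of `μ` -/
def Free (u : Equiv.Perm (Fin n)) (A : Finset (Fin n)) (σ : Fin n → Fin n) (i' j' : Fin n)
    (G F : Finset (Fin n)) (μ : Fin n → Fin n) (c : Fin n) : Prop :=
  i' ≤ u c ∧ en A σ c ≤ j' ∧ ∀ y ∈ pth A σ c, y ∈ G ∧ y ∈ F ∧ μ y = y

/-- number of moved points -/
def mv (A : Finset (Fin n)) (σ : Fin n → Fin n) : ℕ := (A.filter fun a => σ a ≠ a).card

end Pool.Agent.H44.KL
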