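import Pool.Agent.H44.KL.NecAux
import Pool.Agent.H49.KL.Cnt
import Pool.Agent.H94.KL.Bridge

/-!
# Necessity of the class criterion
-/

set_option autoImplicit false

open Pool.Agent.H30.KL

namespace Pool.Agent.H44.KL

variable {n : ℕ} {u v : Equiv.Perm (Fin n)}

/-- a homogeneous Kazhdan–Lusztig ideal satisfies the criterion -/
theorem nec_crit (huv : BruhatLE u v) (hH : Hom u v) : Crit u v :=
  nec_aux huv hH
    (fun _ _ _ _ hC hR hm hg hI _ _ _ _ _ _ hi hj hσ hL hsub =>
      Pool.Agent.H49.KL.count_C hC hR hm hg huv hI hi hj hσ hL hsub)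
    (fun _ _ _ _ hC hR hm hg _ hL hlex =>
      Pool.Agent.H94.KL.leader_of_lexmax huv hH hC hR hm hg hL hlex)

end Pool.Agent.H44.KL
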