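import Pool.Agent.H44.KL.Types

/-!
# Every irreducible box is uniform: the induction on the pair and the assembly of the cases
-/

set_option autoImplicit false

open Pool.Agent.H30.KL Pool.Agent.H94.KL Pool.Agent.H61.KL Pool.Agent.H86.KL

namespace Pool.Agent.H44.KL

variable {n : ℕ} {u v : Equiv.Perm (Fin n)} {i j : Fin n} {C R : Finset (Fin n)}

/-- `s` is lex-maximal among the linkings of its length -/
def LexMax (u v : Equiv.Perm (Fin n)) (i j : Fin n) (C R : Finset (Fin n)) (s : Fin n → Fin n) :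
    Prop :=
  ∀ t, Link u v i j C R t → mv (NWs u i j ∪ C) t = mv (NWs u i j ∪ C) s →
    ¬ Lt u (NWs u i j ∪ C) s t

/-- `s` is the largest matching -/
def Tight (u : Equiv.Perm (Fin n)) (i j : Fin n) (C R : Finset (Fin n)) (s : Fin n → Fin n) :
    Prop :=
  ∀ t, Mt u (NWs u i j ∪ C) (NWs u i j ∪ R) t → ¬ Lt u (NWs u i j ∪ C) s t

/-- size of a pair -/
def Phi (u : Equiv.Perm (Fin n)) (C R : Finset (Fin n)) : ℕ :=
  ∑ r ∈ R, ((r : ℕ) + 1) + ∑ c ∈ C, (n - (u c : ℕ))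

theorem phi_C {y c₁ : Fin n} (hc : c₁ ∈ C) (hy : y ∉ C) (hlt : u c₁ < u y) :
    Phi u (insert y (C.erase c₁)) R < Phi u C R := by
  unfold Phi
  rw [Finset.sum_insert (fun h => hy (Finset.mem_of_mem_erase h)),
    ← Finset.add_sum_erase C (fun c => n - (u c : ℕ)) hc]
  have h1 := (u y).isLt
  rw [Fin.lt_def] at hlt
  omega

theorem phi_R {x r₁ : Fin n} (hr : r₁ ∈ R) (hx : x ∉ R) (hlt : x < r₁) :
    Phi u C (insert x (R.erase r₁)) < Phi u C R := by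
  unfold Phi
  rw [Finset.sum_insert (fun h => hx (Finset.mem_of_mem_erase h)),
    ← Finset.add_sum_erase R (fun r => (r : ℕ) + 1) hr]
  rw [Fin.lt_def] at hlt
  omega

theorem card_swap {S : Finset (Fin n)} {x y : Fin n} (hx : x ∈ S) (hy : y ∉ S) :
    (insert y (S.erase x)).card = S.card := by
  rw [Finset.card_insert_of_notMem (fun h => hy (Finset.mem_of_mem_erase h)),
    Finset.card_erase_of_mem hx]
  have := Finset.card_pos.2 ⟨x, hx⟩
  omega

/-- all the linkings of a box have the same length, if the pairs moved to the north-west have this property -/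
def UnifAt (u v : Equiv.Perm (Fin n)) (i j : Fin n) (C R : Finset (Fin n)) : Prop :=
  ∀ σ σ' : Fin n → Fin n, Link u v i j C R σ → Link u v i j C R σ' →
    mv (NWs u i j ∪ C) σ = mv (NWs u i j ∪ C) σ'

/-- one step of the induction -/
def UStep (u v : Equiv.Perm (Fin n)) (i j : Fin n) : Prop :=
  ∀ C R : Finset (Fin n), C ⊆ SWs u i j → R ⊆ NEs u i j → C.card = R.card →
    rk u i j + C.card = rk v i j + 1 → Irr u v i j C R →
    (∀ c₁ ∈ C, (∀ c ∈ C, c₁ ≤ c) → LowC u v i j C R c₁) →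
    (∀ r₁ ∈ R, (∀ r ∈ R, u r ≤ u r₁) → LowR u v i j C R r₁) → UnifAt u v i j C R

/-- the induction on the pair -/
theorem unif_of_step (h : ∀ i j, UStep u v i j) : Unif u v := by
  intro i j
  suffices hsuff : ∀ (N : ℕ) (C R : Finset (Fin n)), Phi u C R = N → C ⊆ SWs u i j →
      R ⊆ NEs u i j → C.card = R.card → rk u i j + C.card = rk v i j + 1 → Irr u v i j C R →
      UnifAt u v i j C R from
    fun C R hC hR hm hg hI σ σ' hσ hσ' => hsuff _ C R rfl hC hR hm hg hI σ σ' hσ hσ'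
  intro N
  induction N using Nat.strong_induction_on with
  | _ N ih =>
    intro C R hN hC hR hm hg hI
    refine h i j C R hC hR hm hg hI ?_ ?_
    · intro c₁ hc₁ hmin y hy huy hyi hI' σ σ' hσ hσ'
      have hyC : y ∉ C := fun h1 => absurd hy (not_lt.2 (hmin y h1))
      refine ih (Phi u (insert y (C.erase c₁)) R) (by rw [← hN]; exact phi_C hc₁ hyC huy)
        (insert y (C.erase c₁)) R rfl ?_ hR ?_ ?_ hI' σ σ' hσ hσ'
      · intro z hz
        rcases Finset.mem_insert.1 hz with rfl | h1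
        · exact mem_SWs.2 ⟨hy.le.trans (mem_SWs.1 (hC hc₁)).1, hyi⟩
        · exact hC (Finset.mem_of_mem_erase h1)
      · rw [card_swap hc₁ hyC]
        exact hm
      · rw [card_swap hc₁ hyC]
        exact hg
    · intro r₁ hr₁ hmax x hjx hx hux hI' σ σ' hσ hσ'
      have hxR : x ∉ R := fun h1 => absurd hux (not_lt.2 (hmax x h1))
      refine ih (Phi u C (insert x (R.erase r₁))) (by rw [← hN]; exact phi_R hr₁ hxR hx)
        C (insert x (R.erase r₁)) rfl hC ?_ ?_ hg hI' σ σ' hσ hσ'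
      · intro z hz
        rcases Finset.mem_insert.1 hz with rfl | h1
        · exact mem_NEs.2 ⟨hjx, (mem_NEs.1 (hR hr₁)).2.trans hux.le⟩
        · exact hR (Finset.mem_of_mem_erase h1)
      · rw [card_swap hr₁ hxR]
        exact hm

/-- assembly of the cases -/
theorem step_of_cases (huv : BruhatLE u v) (hH : Hom u v)
    (hA : ∀ (C R : Finset (Fin n)), C ⊆ SWs u i j → R ⊆ NEs u i j → C.card = R.card →
      rk u i j + C.card = rk v i j + 1 → Irr u v i j C R →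
      ∀ c₁ ∈ C, (∀ c ∈ C, c₁ ≤ c) → LowC u v i j C R c₁ →
      ∀ s, Link u v i j C R s → LexMax u v i j C R s →
      (Tight u i j C R s ∨ ∃ i' j', STy u v i j C s i' j') →
      ∀ ρ, Link u v i j C R ρ → u (s c₁) ≤ u (ρ c₁))
    (hA' : ∀ (C R : Finset (Fin n)), C ⊆ SWs u i j → R ⊆ NEs u i j → C.card = R.card →
      rk u i j + C.card = rk v i j + 1 → Irr u v i j C R →
      ∀ r₁ ∈ R, (∀ r ∈ R, u r ≤ u r₁) → LowR u v i j C R r₁ →
      ∀ s, Link u v i j C R s → LexMax u v i j C R s →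
      (Tight u i j C R s ∨ ∃ i' j', NTy u v i j C R s i' j') →
      ∀ b ∈ NWs u i j ∪ C, s b = r₁ →
      ∀ ρ, Link u v i j C R ρ → ∀ b' ∈ NWs u i j ∪ C, ρ b' = r₁ → b' ≤ b)
    (hF : ∀ (C R : Finset (Fin n)), C ⊆ SWs u i j → R ⊆ NEs u i j → C.card = R.card →
      rk u i j + C.card = rk v i j + 1 → Irr u v i j C R →
      ∀ c₁ ∈ C, (∀ c ∈ C, c₁ ≤ c) → LowC u v i j C R c₁ →
      ∀ s, Link u v i j C R s → (∃ i' j', STy u v i j C s i' j') →
      ∀ ρ ρ', Link u v i j C R ρ → Link u v i j C R ρ' → ρ c₁ = s c₁ → ρ' c₁ = s c₁ →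
      mv (NWs u i j ∪ C) ρ = mv (NWs u i j ∪ C) ρ')
    (hF' : ∀ (C R : Finset (Fin n)), C ⊆ SWs u i j → R ⊆ NEs u i j → C.card = R.card →
      rk u i j + C.card = rk v i j + 1 → Irr u v i j C R →
      ∀ r₁ ∈ R, (∀ r ∈ R, u r ≤ u r₁) → LowR u v i j C R r₁ →
      ∀ s, Link u v i j C R s → (∃ i' j', NTy u v i j C R s i' j') →
      ∀ b ∈ NWs u i j ∪ C, s b = r₁ →
      ∀ ρ ρ', Link u v i j C R ρ → Link u v i j C R ρ' → ρ b = r₁ → ρ' b = r₁ →
      mv (NWs u i j ∪ C) ρ = mv (NWs u i j ∪ C) ρ')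
    (hX : ∀ (C R : Finset (Fin n)), C ⊆ SWs u i j → R ⊆ NEs u i j → C.card = R.card →
      rk u i j + C.card = rk v i j + 1 → Irr u v i j C R →
      ∀ c₁ ∈ C, (∀ c ∈ C, c₁ ≤ c) → LowC u v i j C R c₁ →
      ∀ r₁ ∈ R, (∀ r ∈ R, u r ≤ u r₁) → LowR u v i j C R r₁ →
      ∀ s, Link u v i j C R s → LexMax u v i j C R s → (∃ i' j', STy u v i j C s i' j') →
      ∀ t, Link u v i j C R t → LexMax u v i j C R t → (∃ i' j', NTy u v i j C R t i' j') →
      mv (NWs u i j ∪ C) s = mv (NWs u i j ∪ C) t) :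
    UStep u v i j := by
  classical
  intro C R hC hR hm hg hI hlC hlR
  -- the leftmost start and the highest end
  have hCne : C.Nonempty := by
    rw [Finset.nonempty_iff_ne_empty]
    rintro rfl
    have h1 := huv i j
    rw [Finset.card_empty] at hg
    omega
  have hRne : R.Nonempty := by
    rw [← Finset.card_pos, ← hm]
    exact Finset.card_pos.2 hCne
  obtain ⟨c₁, hc₁, hmin⟩ := C.exists_min_image id hCne
  obtain ⟨r₁, hr₁, hmax⟩ := R.exists_max_image (fun r => u r) hRne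
  simp only [id_eq] at hmin
  have hlc := hlC c₁ hc₁ hmin
  have hlr := hlR r₁ hr₁ hmax
  intro σ σ' hσ hσ'
  by_contra hne
  -- the smallest length
  have hex : ∃ k, ∃ s, Link u v i j C R s ∧ mv (NWs u i j ∪ C) s = k := ⟨_, σ, hσ, rfl⟩
  set k₀ := Nat.find hex with hk₀
  obtain ⟨s₀, hs₀, hs₀k⟩ := Nat.find_spec hex
  have hmin₀ : ∀ s, Link u v i j C R s → k₀ ≤ mv (NWs u i j ∪ C) s := fun s hs =>
    Nat.find_min' hex ⟨s, hs, rfl⟩
  -- the second smallest length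
  have hex₁ : ∃ k, k ≠ k₀ ∧ ∃ s, Link u v i j C R s ∧ mv (NWs u i j ∪ C) s = k := by
    by_cases h1 : mv (NWs u i j ∪ C) σ = k₀
    · exact ⟨_, fun h2 => hne (h1.trans h2.symm), σ', hσ', rfl⟩
    · exact ⟨_, h1, σ, hσ, rfl⟩
  set k₁ := Nat.find hex₁ with hk₁
  obtain ⟨hk01, s₁, hs₁, hs₁k⟩ := Nat.find_spec hex₁
  have hmin₁ : ∀ s, Link u v i j C R s → mv (NWs u i j ∪ C) s ≠ k₀ →
      k₁ ≤ mv (NWs u i j ∪ C) s := fun s hs h1 => Nat.find_min' hex₁ ⟨h1, s, hs, rfl⟩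
  obtain ⟨τ₀, ⟨hτ₀, e₀⟩, hτ₀max⟩ := exists_lexmax u (NWs u i j ∪ C)
    (fun s => Link u v i j C R s ∧ mv (NWs u i j ∪ C) s = k₀) ⟨s₀, hs₀, hs₀k⟩
  obtain ⟨τ₁, ⟨hτ₁, e₁⟩, hτ₁max⟩ := exists_lexmax u (NWs u i j ∪ C)
    (fun s => Link u v i j C R s ∧ mv (NWs u i j ∪ C) s = k₁) ⟨s₁, hs₁, hs₁k⟩
  have l₀ : LexMax u v i j C R τ₀ := fun t ht h1 => hτ₀max t ⟨ht, h1.trans e₀⟩
  have l₁ : LexMax u v i j C R τ₁ := fun t ht h1 => hτ₁max t ⟨ht, h1.trans e₁⟩
  have t₀ : Tight u i j C R τ₀ ∨ (∃ i' j', STy u v i j C τ₀ i' j') ∨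
      ∃ i' j', NTy u v i j C R τ₀ i' j' := by
    rcases types hC hR hm hg hI huv hH hτ₀ l₀ with h1 | ⟨t, t', ht, ht', h1, h2⟩ | h1
    · exact Or.inl h1
    · exfalso
      have := hmin₀ t ht
      omega
    · exact Or.inr h1
  have t₁ : Tight u i j C R τ₁ ∨ (∃ i' j', STy u v i j C τ₁ i' j') ∨
      ∃ i' j', NTy u v i j C R τ₁ i' j' := by
    rcases types hC hR hm hg hI huv hH hτ₁ l₁ with h1 | ⟨t, t', ht, ht', h1, h2⟩ | h1
    · exact Or.inl h1
    · exfalso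
      have h3 := hmin₀ t' ht'
      have h4 := hmin₁ t ht (by omega)
      omega
    · exact Or.inr h1
  -- two linkings of type `S` or tight, one of them of type `S`
  have hSS : ∀ s t, Link u v i j C R s → Link u v i j C R t → LexMax u v i j C R s →
      LexMax u v i j C R t → (∃ i' j', STy u v i j C s i' j') →
      (Tight u i j C R t ∨ ∃ i' j', STy u v i j C t i' j') →
      mv (NWs u i j ∪ C) s = mv (NWs u i j ∪ C) t := by
    intro s t hs ht ls lt hS hT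
    have h1 := hA C R hC hR hm hg hI c₁ hc₁ hmin hlc s hs ls (Or.inr hS) t ht
    have h2 := hA C R hC hR hm hg hI c₁ hc₁ hmin hlc t ht lt hT s hs
    exact hF C R hC hR hm hg hI c₁ hc₁ hmin hlc s hs hS s t hs ht rfl
      (u.injective (le_antisymm h2 h1))
  have hNN : ∀ s t, Link u v i j C R s → Link u v i j C R t → LexMax u v i j C R s →
      LexMax u v i j C R t → (∃ i' j', NTy u v i j C R s i' j') →
      (Tight u i j C R t ∨ ∃ i' j', NTy u v i j C R t i' j') →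
      mv (NWs u i j ∪ C) s = mv (NWs u i j ∪ C) t := by
    intro s t hs ht ls lt hS hT
    obtain ⟨b, hb, hsb⟩ := (mt_of_link hs).surj (Finset.mem_union_right (NWs u i j) hr₁)
    obtain ⟨b', hb', htb⟩ := (mt_of_link ht).surj (Finset.mem_union_right (NWs u i j) hr₁)
    have h1 := hA' C R hC hR hm hg hI r₁ hr₁ hmax hlr s hs ls (Or.inr hS) b hb hsb t ht b' hb' htb
    have h2 := hA' C R hC hR hm hg hI r₁ hr₁ hmax hlr t ht lt hT b' hb' htb s hs b hb hsb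
    have h3 : b' = b := le_antisymm h1 h2
    exact hF' C R hC hR hm hg hI r₁ hr₁ hmax hlr s hs hS b hb hsb s t hs ht hsb
      (by rw [← h3]; exact htb)
  have hSN := fun s t hs ls hS ht lt hT =>
    hX C R hC hR hm hg hI c₁ hc₁ hmin hlc r₁ hr₁ hmax hlr s hs ls hS t ht lt hT
  apply hk01
  change k₁ = k₀
  rw [← e₀, ← e₁]
  rcases t₀ with a₀ | a₀ | a₀ <;> rcases t₁ with a₁ | a₁ | a₁
  · -- both are the largest matching
    have h2 := eqOn_of_max (a₀ τ₁ (mt_of_link hτ₁)) (a₁ τ₀ (mt_of_link hτ₀))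
    unfold mv
    congr 1
    ext a
    rw [Finset.mem_filter, Finset.mem_filter]
    constructor
    · rintro ⟨h3, h4⟩
      exact ⟨h3, by rw [h2 a h3]; exact h4⟩
    · rintro ⟨h3, h4⟩
      exact ⟨h3, by rw [← h2 a h3]; exact h4⟩
  · exact hSS τ₁ τ₀ hτ₁ hτ₀ l₁ l₀ a₁ (Or.inl a₀)
  · exact hNN τ₁ τ₀ hτ₁ hτ₀ l₁ l₀ a₁ (Or.inl a₀)
  · exact (hSS τ₀ τ₁ hτ₀ hτ₁ l₀ l₁ a₀ (Or.inl a₁)).symm
  · exact (hSS τ₀ τ₁ hτ₀ hτ₁ l₀ l₁ a₀ (Or.inr a₁)).symm
  · exact (hSN τ₀ τ₁ hτ₀ l₀ a₀ hτ₁ l₁ a₁).symm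
  · exact (hNN τ₀ τ₁ hτ₀ hτ₁ l₀ l₁ a₀ (Or.inl a₁)).symm
  · exact hSN τ₁ τ₀ hτ₁ l₁ a₁ hτ₀ l₀ a₀
  · exact (hNN τ₀ τ₁ hτ₀ hτ₁ l₀ l₁ a₀ (Or.inr a₁)).symm

end Pool.Agent.H44.KL
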