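import Pool.Agent.H44.KL.Core
import Pool.Agent.H61.KL.CaseB
import Pool.Agent.H61.KL.CaseNE

/-!
# One box: all linkings have the same number of moved points
-/

set_option autoImplicit false

open Pool.Agent.H30.KL Pool.Agent.H94.KL Pool.Agent.H61.KL

namespace Pool.Agent.H44.KL

variable {n : ℕ} {u v : Equiv.Perm (Fin n)} {i j : Fin n} {C R : Finset (Fin n)}

theorem box_aux (hC : C ⊆ SWs u i j) (hR : R ⊆ NEs u i j) (hg : rk u i j + C.card = rk v i j + 1)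
    (hI : Irr u v i j C R) (huv : BruhatLE u v) (hH : Hom u v)
    (hmin : ∀ i' j' : Fin n, (i' ≤ i ∧ j' ≤ j ∨ i ≤ i' ∧ j ≤ j') → C ⊆ SWs u i' j' →
      R ⊆ NEs u i' j' → rk u i' j' + C.card = rk v i' j' + 1 →
      (Us u C R i j).card ≤ (Us u C R i' j').card)
    (hcnt : ∀ (i' j' : Fin n) (G F : Finset (Fin n)) (σ μ : Fin n → Fin n), i' < i → j < j' →
      Mt u (NWs u i j ∪ C) (NWs u i j ∪ R) σ → Ldr u v i' j' G F μ →
      (∀ y ∈ G, μ y ≠ y → y ∈ NWs u i j ∪ C ∧ μ y = σ y) →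
      (∀ t, Mt u (NWs u i j ∪ C) (NWs u i j ∪ R) t → ¬ Lt u (NWs u i j ∪ C) σ t) ∨
      ((∃ c₁ ∈ C, ∃ c₂ ∈ C, c₁ ≠ c₂ ∧ Free u (NWs u i j ∪ C) σ i' j' G F μ c₁ ∧
        Free u (NWs u i j ∪ C) σ i' j' G F μ c₂) ∧
        ∃ c ∈ C, Full u (NWs u i j ∪ C) σ i' j' G μ c ∧
          ((∃ c' ∈ C, c' ≠ c ∧ Full u (NWs u i j ∪ C) σ i' j' G μ c') ∨
            rk v i' j' = rk u i' j')))
    (hlead : ∀ σ : Fin n → Fin n, Link u v i j C R σ →
      (∀ t, Link u v i j C R t → mv (NWs u i j ∪ C) t = mv (NWs u i j ∪ C) σ →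
        ¬ Lt u (NWs u i j ∪ C) σ t) → ∃ i' j' G F μ, Ldr u v i' j' G F μ ∧
          ∀ y ∈ G, μ y ≠ y → y ∈ NWs u i j ∪ C ∧ μ y = σ y) :
    ∀ σ σ' : Fin n → Fin n, Link u v i j C R σ → Link u v i j C R σ' →
      mv (NWs u i j ∪ C) σ = mv (NWs u i j ∪ C) σ' := by
  classical
  -- a maximal member of its length is the largest matching, or there are two smaller lengths
  have key : ∀ σ : Fin n → Fin n, Link u v i j C R σ →
      (∀ t, Link u v i j C R t → mv (NWs u i j ∪ C) t = mv (NWs u i j ∪ C) σ →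
        ¬ Lt u (NWs u i j ∪ C) σ t) →
      (∀ t, Mt u (NWs u i j ∪ C) (NWs u i j ∪ R) t → ¬ Lt u (NWs u i j ∪ C) σ t) ∨
      ∃ t t', Link u v i j C R t ∧ Link u v i j C R t' ∧
        mv (NWs u i j ∪ C) t' < mv (NWs u i j ∪ C) t ∧
        mv (NWs u i j ∪ C) t < mv (NWs u i j ∪ C) σ := by
    intro σ hL hlex
    obtain ⟨i', j', G, F, μ, hM, hsub⟩ := hlead σ hL hlex
    have hσ := mt_of_link hL
    rcases le_total i i' with h1 | h1
    · rcases le_total j' j with h2 | h2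
      · by_cases h3 : i' = i ∧ j' = j
        · left
          obtain ⟨rfl, rfl⟩ := h3
          exact case_self hC hR hg hσ hM hsub
        · exact (case_NW (rk_of_link hL) hσ hM hsub h1 h2 (by tauto)).elim
      · by_cases h3 : i' = i ∧ j' = j
        · left
          obtain ⟨rfl, rfl⟩ := h3
          exact case_self hC hR hg hσ hM hsub
        · left
          exact case_NE hC hR hI hσ hM hsub h1 h2 (by tauto)
            (fun h4 h5 h6 => hmin i' j' (Or.inr ⟨h1, h2⟩) h4 h5 h6)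
    · rcases le_total j' j with h2 | h2
      · by_cases h3 : i' = i ∧ j' = j
        · left
          obtain ⟨rfl, rfl⟩ := h3
          exact case_self hC hR hg hσ hM hsub
        · left
          exact case_SW hC hR hI hσ hM hsub h1 h2 (by tauto)
            (fun h4 h5 h6 => hmin i' j' (Or.inl ⟨h1, h2⟩) h4 h5 h6)
      · rcases h1.lt_or_eq with h3 | h3
        · rcases h2.lt_or_eq with h4 | h4
          · rcases hcnt i' j' G F σ μ h3 h4 hσ hM hsub with h5 | ⟨h5, h6⟩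
            · exact Or.inl h5
            · right
              exact core hC hR hg hI huv hH h3 h4 hL hlex hM h5 h6
          · left
            subst h4
            exact case_SW hC hR hI hσ hM hsub h1 le_rfl (Or.inl h3.ne)
              (fun h4 h5 h6 => hmin i' j (Or.inl ⟨h1, le_rfl⟩) h4 h5 h6)
        · subst h3
          by_cases h4 : j' = j
          · left
            subst h4
            exact case_self hC hR hg hσ hM hsub
          · left
            exact case_NE hC hR hI hσ hM hsub le_rfl h2 (Or.inr h4)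
              (fun h5 h6 h7 => hmin i' j' (Or.inr ⟨le_rfl, h2⟩) h5 h6 h7)
  intro σ σ' hσ hσ'
  by_contra hne
  -- the smallest length
  have hex : ∃ k, ∃ s, Link u v i j C R s ∧ mv (NWs u i j ∪ C) s = k := ⟨_, σ, hσ, rfl⟩
  set k₀ := Nat.find hex with hk₀
  obtain ⟨s₀, hs₀, hs₀k⟩ := Nat.find_spec hex
  have hmin₀ : ∀ s, Link u v i j C R s → k₀ ≤ mv (NWs u i j ∪ C) s := fun s hs =>
    Nat.find_min' hex ⟨s, hs, rfl⟩
  -- the second smallest length
  have hex₁ : ∃ k, k ≠ k₀ ∧ ∃ s, Link u v i j C R s ∧ mv (NWs u i j ∪ C) s = k := by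
    by_cases h1 : mv (NWs u i j ∪ C) σ = k₀
    · exact ⟨_, fun h2 => hne (h1.trans h2.symm), σ', hσ', rfl⟩
    · exact ⟨_, h1, σ, hσ, rfl⟩
  set k₁ := Nat.find hex₁ with hk₁
  obtain ⟨hk01, s₁, hs₁, hs₁k⟩ := Nat.find_spec hex₁
  have hmin₁ : ∀ s, Link u v i j C R s → mv (NWs u i j ∪ C) s ≠ k₀ →
      k₁ ≤ mv (NWs u i j ∪ C) s := fun s hs h1 => Nat.find_min' hex₁ ⟨h1, s, hs, rfl⟩
  obtain ⟨τ₀, ⟨hτ₀, e₀⟩, hτ₀max⟩ := exists_lexmax u (NWs u i j ∪ C)
    (fun s => Link u v i j C R s ∧ mv (NWs u i j ∪ C) s = k₀) ⟨s₀, hs₀, hs₀k⟩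
  obtain ⟨τ₁, ⟨hτ₁, e₁⟩, hτ₁max⟩ := exists_lexmax u (NWs u i j ∪ C)
    (fun s => Link u v i j C R s ∧ mv (NWs u i j ∪ C) s = k₁) ⟨s₁, hs₁, hs₁k⟩
  have h₀ : ∀ t, Mt u (NWs u i j ∪ C) (NWs u i j ∪ R) t → ¬ Lt u (NWs u i j ∪ C) τ₀ t := by
    rcases key τ₀ hτ₀ (fun t ht h1 => hτ₀max t ⟨ht, h1.trans e₀⟩) with h1 | ⟨t, t', ht, ht', h1, h2⟩
    · exact h1
    · exfalso
      have := hmin₀ t ht
      omega
  have h₁ : ∀ t, Mt u (NWs u i j ∪ C) (NWs u i j ∪ R) t → ¬ Lt u (NWs u i j ∪ C) τ₁ t := by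
    rcases key τ₁ hτ₁ (fun t ht h1 => hτ₁max t ⟨ht, h1.trans e₁⟩) with h1 | ⟨t, t', ht, ht', h1, h2⟩
    · exact h1
    · exfalso
      have h3 := hmin₀ t' ht'
      have h4 := hmin₁ t ht (by omega)
      omega
  have h2 := eqOn_of_max (h₀ τ₁ (mt_of_link hτ₁)) (h₁ τ₀ (mt_of_link hτ₀))
  apply hk01
  change k₁ = k₀
  rw [← e₀, ← e₁]
  unfold mv
  congr 1
  ext a
  rw [Finset.mem_filter, Finset.mem_filter]
  constructor
  · rintro ⟨h3, h4⟩
    exact ⟨h3, by rw [h2 a h3]; exact h4⟩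
  · rintro ⟨h3, h4⟩
    exact ⟨h3, by rw [← h2 a h3]; exact h4⟩

end Pool.Agent.H44.KL
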