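import Pool.Agent.H44.KL.Dbl

/-!
# The foreign boxes: exchanges of full and free paths
-/

set_option autoImplicit false

open Pool.Agent.H30.KL Pool.Agent.H94.KL

namespace Pool.Agent.H44.KL

variable {n : ℕ} {u v : Equiv.Perm (Fin n)} {i j i' j' : Fin n} {C R G F : Finset (Fin n)}
  {σ μ : Fin n → Fin n}

theorem start_notMem (hC : C ⊆ SWs u i j) (hR : R ⊆ NEs u i j) {c : Fin n} (hc : c ∈ C) :
    c ∉ NWs u i j ∪ R := by
  intro h
  rcases Finset.mem_union.1 h with h1 | h1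
  · exact absurd (mem_NWs.1 h1).2 (not_le.2 (mem_SWs.1 (hC hc)).2)
  · exact absurd (mem_NEs.1 (hR h1)).1 (not_lt.2 (mem_SWs.1 (hC hc)).1)

theorem en_memR (hC : C ⊆ SWs u i j) (hR : R ⊆ NEs u i j)
    (hσ : Mt u (NWs u i j ∪ C) (NWs u i j ∪ R) σ) {c : Fin n} (hc : c ∈ C) :
    en (NWs u i j ∪ C) σ c ∈ R := by
  obtain ⟨h1, h2⟩ := en_spec hσ (Finset.mem_union_right _ hc) (start_notMem hC hR hc)
  rcases Finset.mem_union.1 h1 with h3 | h3
  · exact absurd (Finset.mem_union_left _ h3) h2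
  · exact h3

theorem mem_A_le (hC : C ⊆ SWs u i j) {y : Fin n} (hy : y ∈ NWs u i j ∪ C) : y ≤ j := by
  rcases Finset.mem_union.1 hy with h1 | h1
  · exact (mem_NWs.1 h1).1
  · exact (mem_SWs.1 (hC h1)).1

theorem mem_B_ge (hR : R ⊆ NEs u i j) {y : Fin n} (hy : y ∈ NWs u i j ∪ R) : i ≤ u y := by
  rcases Finset.mem_union.1 hy with h1 | h1
  · exact (mem_NWs.1 h1).2
  · exact (mem_NEs.1 (hR h1)).2

theorem pth_cases (hC : C ⊆ SWs u i j) (hR : R ⊆ NEs u i j)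
    (hσ : Mt u (NWs u i j ∪ C) (NWs u i j ∪ R) σ) {c y : Fin n}
    (hy : y ∈ pth (NWs u i j ∪ C) σ c) :
    y = c ∨ y = en (NWs u i j ∪ C) σ c ∨ y ∈ NWs u i j := by
  by_cases h1 : y = c
  · exact Or.inl h1
  · by_cases h2 : y = en (NWs u i j ∪ C) σ c
    · exact Or.inr (Or.inl h2)
    · right
      right
      have h3 := (pth_sub hσ hy h2).1
      obtain ⟨a, ha, ha1, ha2⟩ := pth_back hσ hy h1
      have h4 : y ∈ NWs u i j ∪ R := by
        rw [← ha2]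
        exact hσ.mem (pth_sub hσ ha ha1).1
      exact mem_NWs.2 ⟨mem_A_le hC h3, mem_B_ge hR h4⟩

theorem pth_le (hC : C ⊆ SWs u i j) (hσ : Mt u (NWs u i j ∪ C) (NWs u i j ∪ R) σ) {c y : Fin n}
    (hy : y ∈ pth (NWs u i j ∪ C) σ c) (hne : y ≠ en (NWs u i j ∪ C) σ c) : y ≤ j :=
  mem_A_le hC (pth_sub hσ hy hne).1

theorem pth_ge (hR : R ⊆ NEs u i j) (hσ : Mt u (NWs u i j ∪ C) (NWs u i j ∪ R) σ) {c y : Fin n}
    (hy : y ∈ pth (NWs u i j ∪ C) σ c) (hne : y ≠ c) : i ≤ u y := by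
  obtain ⟨a, ha, ha1, ha2⟩ := pth_back hσ hy hne
  rw [← ha2]
  exact mem_B_ge hR (hσ.mem (pth_sub hσ ha ha1).1)

/-- a path all of whose steps are steps of `μ` is a path of `μ` -/
theorem pt_mu (hσ : Mt u (NWs u i j ∪ C) (NWs u i j ∪ R) σ) {c : Fin n}
    (hF : Full u (NWs u i j ∪ C) σ i' j' G μ c) :
    Pt u G μ (pth (NWs u i j ∪ C) σ c) c (en (NWs u i j ∪ C) σ c) := by
  have h := pt_pth hσ c
  refine ⟨h.hc, h.hr, h.ge, h.le, h.mono, ?_, ?_, ?_⟩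
  · intro x hx hne
    obtain ⟨h1, h2⟩ := hF.2.2 x hx hne
    rw [h2]
    exact ⟨h1, (h.sub x hx hne).2⟩
  · intro x hx hne
    obtain ⟨y, hy, h1, h2⟩ := h.back x hx hne
    exact ⟨y, hy, h1, (hF.2.2 y hy h1).2.trans h2⟩
  · intro x hx y hy hxy
    rw [(hF.2.2 x hx (fun h1 => absurd (h.le y hy) (not_le.2 (h1 ▸ hxy)))).2]
    exact h.next x hx y hy hxy

section

variable (hC : C ⊆ SWs u i j) (hR : R ⊆ NEs u i j) (hσ : Mt u (NWs u i j ∪ C) (NWs u i j ∪ R) σ)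
  (hM : Ldr u v i' j' G F μ)

include hC hR hσ hM

/-- a point of a free path right of the start of a full path lies above the next point of the full path -/
theorem above {c c₁ x : Fin n} (hc : c ∈ C) (hc₁ : c₁ ∈ C)
    (hF : Full u (NWs u i j ∪ C) σ i' j' G μ c) (hQ : Free u (NWs u i j ∪ C) σ i' j' G F μ c₁)
    (hx : x ∈ pth (NWs u i j ∪ C) σ c₁) (hcx : c < x) :
    ∃ p ∈ pth (NWs u i j ∪ C) σ c, p ≠ en (NWs u i j ∪ C) σ c ∧ p < x ∧ x < σ p ∧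
      u (σ p) < u x := by
  have hne : c ≠ c₁ := by
    rintro rfl
    exact absurd hF.1 (not_lt.2 hQ.1)
  have hxV : x ∉ pth (NWs u i j ∪ C) σ c := fun h1 =>
    hne (pth_disj hσ (start_notMem hC hR hc) (start_notMem hC hR hc₁) x h1 hx)
  have hP := pt_pth hσ c
  have hxr : x < en (NWs u i j ∪ C) σ c :=
    lt_of_le_of_lt (le_en hσ hx) (lt_of_le_of_lt hQ.2.1 hF.2.1)
  obtain ⟨p, hp, hpr, hpx, hxp⟩ := hP.exists_p hcx hxr hxV
  refine ⟨p, hp, hpr, hpx, hxp, ?_⟩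
  obtain ⟨h1, h2, h3⟩ := hQ.2.2 x hx
  have h4 := above_of_max hM.mt hM.max (pt_mu hσ hF) h1 h3 hxV
    (lt_of_lt_of_le hF.1 (hM.hF x h2)) hp hpr hpx
  rw [(hF.2.2 p hp hpr).2] at h4
  exact h4 hxp

/-- a free path starts left of a full path -/
theorem start_lt {c c₁ : Fin n} (hc : c ∈ C) (hc₁ : c₁ ∈ C)
    (hF : Full u (NWs u i j ∪ C) σ i' j' G μ c) (hQ : Free u (NWs u i j ∪ C) σ i' j' G F μ c₁) :
    c₁ < c := by
  by_contra h1
  rcases (not_lt.1 h1).lt_or_eq with h2 | h2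
  · obtain ⟨p, hp, hpr, hpx, hxp, h3⟩ := above hC hR hσ hM hc hc₁ hF hQ (self_mem hσ c₁) h2
    obtain ⟨-, h5, h6, -⟩ := pth_sub hσ hp hpr
    have h7 : i ≤ u (σ p) := pth_ge hR hσ h5 (fun h8 => by
      have := ge_pth hσ hp
      rw [h8] at h6
      exact absurd h6 (not_lt.2 this))
    exact absurd (lt_of_le_of_lt h7 h3) (not_lt.2 (mem_SWs.1 (hC hc₁)).2.le)
  · rw [h2] at hF
    exact absurd hF.1 (not_lt.2 hQ.1)

/-- the exchange of a step of a full path with a free path -/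
theorem exists_xc {c c₁ d : Fin n} (hc : c ∈ C) (hc₁ : c₁ ∈ C)
    (hF : Full u (NWs u i j ∪ C) σ i' j' G μ c) (hQ : Free u (NWs u i j ∪ C) σ i' j' G F μ c₁)
    (hd : d ∈ pth (NWs u i j ∪ C) σ c) (hdr : d ≠ en (NWs u i j ∪ C) σ c) :
    ∃ p q, Xc u (NWs u i j ∪ C) σ (pth (NWs u i j ∪ C) σ c₁) c₁ (en (NWs u i j ∪ C) σ c₁) d p q := by
  have hne : c ≠ c₁ := by
    rintro rfl
    exact absurd hF.1 (not_lt.2 hQ.1)
  have hdis : ∀ x, x ∈ pth (NWs u i j ∪ C) σ c → x ∉ pth (NWs u i j ∪ C) σ c₁ := fun x h1 h2 =>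
    hne (pth_disj hσ (start_notMem hC hR hc) (start_notMem hC hR hc₁) x h1 h2)
  have hP₁ := pt_pth hσ c₁
  have hP := pt_pth hσ c
  obtain ⟨hdA, hsd, hds, -⟩ := pth_sub hσ hd hdr
  have hcd := ge_pth hσ hd
  have h1 : c₁ < d := lt_of_lt_of_le (start_lt hC hR hσ hM hc hc₁ hF hQ) hcd
  have h2 : d < en (NWs u i j ∪ C) σ c₁ :=
    lt_of_le_of_lt (pth_le hC hσ hd hdr) (mem_NEs.1 (hR (en_memR hC hR hσ hc₁))).1
  obtain ⟨p, hp, hpr, hpd, hdp⟩ := hP₁.exists_p h1 h2 (hdis d hd)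
  obtain ⟨hpA, hsp, hps, -⟩ := pth_sub hσ hp hpr
  obtain ⟨p', hp', hpr', hpx', hxp', h3⟩ := above hC hR hσ hM hc hc₁ hF hQ hsp
    (lt_of_le_of_lt hcd hdp)
  obtain ⟨hpA', hsp', hps', -⟩ := pth_sub hσ hp' hpr'
  -- the point `p'` is not left of `d`
  have h4 : u (σ d) ≤ u (σ p') := by
    have h5 : d ≤ p' := by
      by_contra h6
      have h7 := hP.next p' hp' d hd (not_le.1 h6)
      exact absurd (lt_of_lt_of_le hxp' h7) (not_lt.2 hdp.le)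
    rcases h5.lt_or_eq with h6 | h6
    · exact hP.mono' hsd hsp' ((hP.next d hd p' hp' h6).trans hps'.le)
    · rw [h6]
  have h5 : u (σ d) < u (σ p) := lt_of_le_of_lt h4 h3
  have h6 : i ≤ u (σ d) := pth_ge hR hσ hsd (fun h7 => absurd hds (not_lt.2 (h7.symm ▸ hcd)))
  obtain ⟨q, hq, hqp, hq1, hq2⟩ := hP₁.exists_q (e := σ d)
    (lt_of_lt_of_le (mem_SWs.1 (hC hc₁)).2 h6) (hdis _ hsd) hp hpr h5
  exact ⟨p, q, hP₁, hdA, hdis d hd, hp, hpr, hpd, hdp, hq, hqp, hq1, hq2⟩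

end

/-- a path over a box of defect zero NW of `(i,j)` has a point south-east of this box -/
theorem avoid (hC : C ⊆ SWs u i j) (hg : rk u i j + C.card = rk v i j + 1) (h2 : 2 ≤ C.card)
    (hσ : Mt u (NWs u i j ∪ C) (NWs u i j ∪ R) σ) (hrk : Rk u v i j (NWs u i j ∪ C) σ)
    {c i₁ j₁ : Fin n} (h3 : i ≤ i₁) (h4 : j₁ ≤ j) (hz : rk v i₁ j₁ = rk u i₁ j₁)
    (hc1 : u c < i₁) (hr1 : i₁ ≤ u (en (NWs u i j ∪ C) σ c)) :
    ∃ x ∈ pth (NWs u i j ∪ C) σ c, j₁ < x ∧ u x < i₁ := by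
  classical
  have hne : ((pth (NWs u i j ∪ C) σ c).filter fun y => i₁ ≤ u y).Nonempty :=
    ⟨_, Finset.mem_filter.2 ⟨en_mem hσ c, hr1⟩⟩
  set b := ((pth (NWs u i j ∪ C) σ c).filter fun y => i₁ ≤ u y).min' hne with hb
  have hbm := Finset.min'_mem _ hne
  rw [← hb, Finset.mem_filter] at hbm
  have hbc : b ≠ c := by
    intro h5
    rw [h5] at hbm
    exact absurd hbm.2 (not_le.2 hc1)
  obtain ⟨a, ha, har, hab⟩ := pth_back hσ hbm.1 hbc
  obtain ⟨haA, -, has, -⟩ := pth_sub hσ ha har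
  rw [hab] at has
  have hua : u a < i₁ := by
    by_contra h5
    have h6 : b ≤ a := by
      rw [hb]
      exact Finset.min'_le ((pth (NWs u i j ∪ C) σ c).filter fun y => i₁ ≤ u y) a
        (Finset.mem_filter.2 ⟨ha, not_lt.1 h5⟩)
    exact absurd has (not_lt.2 h6)
  refine ⟨a, ha, ?_, hua⟩
  by_contra h5
  exact no_NW hg h2 hσ hrk h3 h4 hz haA (not_lt.1 h5) hua (by rw [hab]; exact hbm.2)

/-- a step over a box of defect zero is dead -/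
theorem not_alive {a b i₀ j₀ : Fin n} (hab : a < b) (huab : u a < u b)
    (hz : rk v i₀ j₀ = rk u i₀ j₀) (h1 : a ≤ j₀) (h2 : j₀ < b) (h3 : u a < i₀) (h4 : i₀ ≤ u b) :
    ¬ BruhatLE (u * Equiv.swap a b) v := by
  intro h
  have h5 := h i₀ j₀
  rw [rk_swap hab huab, if_pos ⟨h1, h2, h3, h4⟩] at h5
  omega

section

variable (hC : C ⊆ SWs u i j) (hR : R ⊆ NEs u i j) (hg : rk u i j + C.card = rk v i j + 1)
  (h2 : 2 ≤ C.card) (hI : Irr u v i j C R) (huv : BruhatLE u v) (hL : Link u v i j C R σ)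
  (hM : Ldr u v i' j' G F μ)

include hC hR hg h2 hI huv hL hM

/-- the exchange with a direct full path is alive -/
theorem direct {c c₁ p q : Fin n} (hc : c ∈ C) (hc₁ : c₁ ∈ C)
    (hF : Full u (NWs u i j ∪ C) σ i' j' G μ c) (hQ : Free u (NWs u i j ∪ C) σ i' j' G F μ c₁)
    (hd : σ c = en (NWs u i j ∪ C) σ c)
    (X : Xc u (NWs u i j ∪ C) σ (pth (NWs u i j ∪ C) σ c₁) c₁ (en (NWs u i j ∪ C) σ c₁) c p q) :
    BruhatLE (u * Equiv.swap c (σ p)) v ∧ BruhatLE (u * Equiv.swap q (σ c)) v := by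
  have hσ := mt_of_link hL
  have hcA : c ∈ NWs u i j ∪ C := Finset.mem_union_right _ hc
  have hrc := en_memR hC hR hσ hc
  have hne : σ c ≠ c := by
    intro h
    have h3 := mem_NEs.1 (hR hrc)
    rw [← hd, h] at h3
    exact absurd h3.1 (not_lt.2 (mem_SWs.1 (hC hc)).1)
  have hal := alive_of_link h2 hL c hcA hne
  have hup := hσ.up c hcA hne
  have hdead : ∀ i₀ j₀, i₀ ≤ i → j ≤ j₀ → rk v i₀ j₀ = rk u i₀ j₀ → u c < i₀ → j₀ < σ c → False := by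
    intro i₀ j₀ h3 h4 h5 h6 h7
    refine not_alive hup.1 hup.2 h5 ((mem_SWs.1 (hC hc)).1.trans h4) h7 h6 ?_ hal
    rw [hd]
    exact h3.trans (mem_NEs.1 (hR hrc)).2
  have hM' := X.mt hσ
  have hR' := X.rk hσ (rk_of_link hL)
  constructor
  · have hne' : xch (pth (NWs u i j ∪ C) σ c₁) σ c p q c ≠ c := by
      rw [xch_d]
      exact X.dp.ne'
    rcases alive_or hC hR hg h2 hI huv hM' hR' hcA hne' with h3 | ⟨-, h4, i₀, j₀, h5, h6, h7, h8, h9⟩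
    · rwa [xch_d] at h3
    · exfalso
      rw [xch_d] at h4 h9
      refine hdead i₀ j₀ h5 h6 h7 h8 ?_
      obtain ⟨-, h10, -, -⟩ := pth_sub hσ X.pV X.pr
      rw [hd]
      exact lt_of_lt_of_le h9 ((le_en hσ h10).trans (hQ.2.1.trans hF.2.1.le))
  · have hqA : q ∈ NWs u i j ∪ C := (X.pt.sub q X.qV X.qr).1
    have hne' : xch (pth (NWs u i j ∪ C) σ c₁) σ c p q q ≠ q := by
      rw [X.xch_q]
      intro h3
      exact absurd X.qs (by rw [h3]; exact lt_irrefl _)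
    rcases alive_or hC hR hg h2 hI huv hM' hR' hqA hne' with h3 | ⟨h4, -, i₀, j₀, h5, h6, h7, h8, h9⟩
    · rwa [X.xch_q] at h3
    · exfalso
      rw [X.xch_q] at h9
      refine hdead i₀ j₀ h5 h6 h7 (lt_of_le_of_lt ?_ h8) h9
      rcases pth_cases hC hR hσ X.qV with h10 | h10 | h10
      · rw [h10]
        exact hF.1.le.trans hQ.1
      · exact absurd h10 X.qr
      · exact absurd (mem_NWs.1 h10).2 (not_le.2 (mem_SWs.1 (hC h4)).2)

/-- the exchanges with a full path which is not direct are alive -/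
theorem nondirect (hH : Hom u v) {c c₁ c₂ d p₁ q₁ p₂ q₂ : Fin n} (hc : c ∈ C) (hc₁ : c₁ ∈ C)
    (hc₂ : c₂ ∈ C) (hF : Full u (NWs u i j ∪ C) σ i' j' G μ c)
    (hQ₁ : Free u (NWs u i j ∪ C) σ i' j' G F μ c₁) (hQ₂ : Free u (NWs u i j ∪ C) σ i' j' G F μ c₂)
    (hd : d ∈ pth (NWs u i j ∪ C) σ c) (hde : d ≠ en (NWs u i j ∪ C) σ c)
    (hσd : σ d = en (NWs u i j ∪ C) σ c) (hdc : d ≠ c)
    (X₁ : Xc u (NWs u i j ∪ C) σ (pth (NWs u i j ∪ C) σ c₁) c₁ (en (NWs u i j ∪ C) σ c₁) d p₁ q₁)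
    (X₂ : Xc u (NWs u i j ∪ C) σ (pth (NWs u i j ∪ C) σ c₂) c₂ (en (NWs u i j ∪ C) σ c₂) c p₂ q₂) :
    (BruhatLE (u * Equiv.swap d (σ p₁)) v ∧ BruhatLE (u * Equiv.swap q₁ (σ d)) v) ∧
      BruhatLE (u * Equiv.swap c (σ p₂)) v ∧ BruhatLE (u * Equiv.swap q₂ (σ c)) v := by
  classical
  have hσ := mt_of_link hL
  have hrk := rk_of_link hL
  have hCR : C.card = R.card := card_C_eq_R hC hR hσ
  have hcA : c ∈ NWs u i j ∪ C := Finset.mem_union_right _ hc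
  have hrc := en_memR hC hR hσ hc
  have hP := pt_pth hσ c
  have hce : c ≠ en (NWs u i j ∪ C) σ c := by
    intro h
    have h3 := mem_NEs.1 (hR hrc)
    rw [← h] at h3
    exact absurd h3.1 (not_lt.2 (mem_SWs.1 (hC hc)).1)
  -- the zero box NW of `e`
  have hzero : ∀ i₀ j₀, i₀ ≤ i → j ≤ j₀ → rk v i₀ j₀ = rk u i₀ j₀ → u c < i₀ →
      j₀ < en (NWs u i j ∪ C) σ c → ∃ i₁ j₁ : Fin n, i ≤ i₁ ∧ j₁ ≤ j ∧ rk v i₁ j₁ = rk u i₁ j₁ ∧
        u c < i₁ ∧ c ≤ j₁ ∧ i₁ ≤ u (en (NWs u i j ∪ C) σ c) := by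
    intro i₀ j₀ h3 h4 h5 h6 h7
    have hPath : Pool.Agent.H38.KL.IsPath u c (en (NWs u i j ∪ C) σ c) (pth (NWs u i j ∪ C) σ c) :=
      ⟨hP.hc, hP.hr, fun x hx => ⟨hP.ge x hx, hP.le x hx⟩, hP.mono⟩
    have hcard : 3 ≤ (pth (NWs u i j ∪ C) σ c).card := by
      have h8 : ({c, d, en (NWs u i j ∪ C) σ c} : Finset (Fin n)) ⊆ pth (NWs u i j ∪ C) σ c := by
        intro x hx
        simp only [Finset.mem_insert, Finset.mem_singleton] at hx
        rcases hx with rfl | rfl | rfl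
        · exact hP.hc
        · exact hd
        · exact hP.hr
      have h9 : ({c, d, en (NWs u i j ∪ C) σ c} : Finset (Fin n)).card = 3 := by
        rw [Finset.card_insert_of_notMem, Finset.card_insert_of_notMem, Finset.card_singleton]
        · simpa using hde
        · simp only [Finset.mem_insert, Finset.mem_singleton, not_or]
          exact ⟨hdc.symm, hce⟩
      rw [← h9]
      exact Finset.card_le_card h8
    obtain ⟨i₁, j₁, h8, h9, -, h10, h11, h12, -, h13⟩ := zero_box' hC hR hCR hg h2 hI huv hH hc hrc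
      hPath (fun y hy => pth_cases hC hR hσ hy) hcard ⟨i₀, j₀, h3, h4, h5, h6, h7⟩
    exact ⟨i₁, j₁, h8, h9, h10, h11, h12, h13⟩
  -- points on the free paths
  have hpoint : ∀ c', c' ∈ C → Free u (NWs u i j ∪ C) σ i' j' G F μ c' →
      (∃ i₀ j₀ : Fin n, i₀ ≤ i ∧ j ≤ j₀ ∧ rk v i₀ j₀ = rk u i₀ j₀ ∧ u c < i₀ ∧
        j₀ < en (NWs u i j ∪ C) σ c) →
      ∃ x ∈ pth (NWs u i j ∪ C) σ c', c < x ∧ u x < u (en (NWs u i j ∪ C) σ c) ∧
        x ≠ en (NWs u i j ∪ C) σ c' := by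
    rintro c' hc' hQ' ⟨i₀, j₀, h3, h4, h5, h6, h7⟩
    obtain ⟨i₁, j₁, h8, h9, h10, h11, h12, h13⟩ := hzero i₀ j₀ h3 h4 h5 h6 h7
    -- the end of the free path is above the end of the full path
    have hrc' := en_memR hC hR hσ hc'
    have hcr' : c < en (NWs u i j ∪ C) σ c' :=
      lt_of_le_of_lt (mem_SWs.1 (hC hc)).1 (mem_NEs.1 (hR hrc')).1
    obtain ⟨p', hp', hpr', hpx', hxp', h14⟩ := above hC hR hσ hM hc hc' hF hQ' (en_mem hσ c') hcr'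
    obtain ⟨-, hsp', -, -⟩ := pth_sub hσ hp' hpr'
    have h15 : σ p' = en (NWs u i j ∪ C) σ c := by
      by_contra h16
      have h17 := pth_le hC hσ hsp' h16
      exact absurd (hxp'.trans_le h17) (not_lt.2 (mem_NEs.1 (hR hrc')).1.le)
    rw [h15] at h14
    obtain ⟨x, hx, hx1, hx2⟩ := avoid (c := c') hC hg h2 hσ hrk h8 h9 h10
      (lt_of_lt_of_le (mem_SWs.1 (hC hc')).2 h8) (h13.trans h14.le)
    refine ⟨x, hx, lt_of_le_of_lt h12 hx1, lt_of_lt_of_le hx2 h13, ?_⟩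
    rintro rfl
    exact absurd (lt_of_lt_of_le hx2 h13) (not_lt.2 h14.le)
  obtain ⟨hdA, hsd, hds, -⟩ := pth_sub hσ hd hde
  obtain ⟨-, hsc, hcs, -⟩ := pth_sub hσ hP.hc hce
  have hM₁ := X₁.mt hσ
  have hR₁ := X₁.rk hσ hrk
  have hM₂ := X₂.mt hσ
  have hR₂ := X₂.rk hσ hrk
  have hdC : d ∉ C := by
    intro h
    exact absurd (mem_SWs.1 (hC h)).2 (not_lt.2 (pth_ge hR hσ hd hdc))
  refine ⟨⟨?_, ?_⟩, ?_, ?_⟩
  · have hne' : xch (pth (NWs u i j ∪ C) σ c₁) σ d p₁ q₁ d ≠ d := by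
      rw [xch_d]
      exact X₁.dp.ne'
    rcases alive_or hC hR hg h2 hI huv hM₁ hR₁ hdA hne' with h3 | ⟨h3, -⟩
    · rwa [xch_d] at h3
    · exact absurd h3 hdC
  · have hqA : q₁ ∈ NWs u i j ∪ C := (X₁.pt.sub q₁ X₁.qV X₁.qr).1
    have hne' : xch (pth (NWs u i j ∪ C) σ c₁) σ d p₁ q₁ q₁ ≠ q₁ := by
      rw [X₁.xch_q]
      intro h3
      exact absurd X₁.qs (by rw [h3]; exact lt_irrefl _)
    rcases alive_or hC hR hg h2 hI huv hM₁ hR₁ hqA hne' with h3 | ⟨h4, -, i₀, j₀, h5, h6, h7, h8, h9⟩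
    · rwa [X₁.xch_q] at h3
    · exfalso
      rw [X₁.xch_q, hσd] at h9
      have hq₁ : q₁ = c₁ := by
        rcases pth_cases hC hR hσ X₁.qV with h10 | h10 | h10
        · exact h10
        · exact absurd h10 X₁.qr
        · exact absurd (mem_NWs.1 h10).2 (not_le.2 (mem_SWs.1 (hC h4)).2)
      rw [hq₁] at h8
      obtain ⟨x, hx, hx1, hx2, hx3⟩ := hpoint c₁ hc₁ hQ₁
        ⟨i₀, j₀, h5, h6, h7, (hF.1.trans_le hQ₁.1).trans h8, h9⟩
      -- `x` lies below `σ d` but after `q₁`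
      have h10 : c₁ < x := (start_lt hC hR hσ hM hc hc₁ hF hQ₁).trans hx1
      have h11 := X₁.sq
      have h12 := X₁.pt.next q₁ X₁.qV x hx (by rw [hq₁]; exact h10)
      have h13 := X₁.pt.mono' (X₁.pt.sub q₁ X₁.qV X₁.qr).2.1 hx h12
      rw [hσd] at h11
      exact absurd (h11.trans_le h13) (not_lt.2 hx2.le)
  · have hne' : xch (pth (NWs u i j ∪ C) σ c₂) σ c p₂ q₂ c ≠ c := by
      rw [xch_d]
      exact X₂.dp.ne'
    rcases alive_or hC hR hg h2 hI huv hM₂ hR₂ hcA hne' with h3 | ⟨-, h4, i₀, j₀, h5, h6, h7, h8, h9⟩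
    · rwa [xch_d] at h3
    · exfalso
      rw [xch_d] at h4 h9
      obtain ⟨-, h10, -, -⟩ := pth_sub hσ X₂.pV X₂.pr
      obtain ⟨x, hx, hx1, hx2, hx3⟩ := hpoint c₂ hc₂ hQ₂ ⟨i₀, j₀, h5, h6, h7, h8,
        lt_of_lt_of_le h9 ((le_en hσ h10).trans (hQ₂.2.1.trans hF.2.1.le))⟩
      -- `σ p₂ ≤ x` is not the end of the path
      have h11 : p₂ < x := X₂.pd.trans hx1
      have h12 := X₂.pt.next p₂ X₂.pV x hx h11
      have h13 := pth_le hC hσ hx hx3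
      exact absurd (h12.trans h13) (not_le.2 (mem_NEs.1 (hR h4)).1)
  · have hqA : q₂ ∈ NWs u i j ∪ C := (X₂.pt.sub q₂ X₂.qV X₂.qr).1
    have hne' : xch (pth (NWs u i j ∪ C) σ c₂) σ c p₂ q₂ q₂ ≠ q₂ := by
      rw [X₂.xch_q]
      intro h3
      exact absurd X₂.qs (by rw [h3]; exact lt_irrefl _)
    rcases alive_or hC hR hg h2 hI huv hM₂ hR₂ hqA hne' with h3 | ⟨-, h4, -⟩
    · rwa [X₂.xch_q] at h3
    · exfalso
      rw [X₂.xch_q] at h4
      -- `σ c` is the end of the path, so `d = c`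
      have h5 : σ c = en (NWs u i j ∪ C) σ c := by
        by_contra h6
        exact absurd (mem_NEs.1 (hR h4)).1 (not_lt.2 (pth_le hC hσ hsc h6))
      exact hdc (hσ.inj hdA hcA (hσd.trans h5.symm))

end

end Pool.Agent.H44.KL
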