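import Pool.Agent.H44.KL.CaseC

/-!
# The foreign boxes: conclusion; lex-maximal members
-/

set_option autoImplicit false

open Pool.Agent.H30.KL Pool.Agent.H94.KL

namespace Pool.Agent.H44.KL

variable {n : ℕ} {u v : Equiv.Perm (Fin n)} {i j i' j' : Fin n} {A C R G F : Finset (Fin n)}
  {σ μ : Fin n → Fin n}

/-- the lex-maximal linking of its length contains no leader of a foreign box with two free paths,
unless there are linkings of two smaller lengths -/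
theorem core (hC : C ⊆ SWs u i j) (hR : R ⊆ NEs u i j) (hg : rk u i j + C.card = rk v i j + 1)
    (hI : Irr u v i j C R) (huv : BruhatLE u v) (hH : Hom u v) (hi : i' < i) (hj : j < j')
    (hL : Link u v i j C R σ)
    (hlex : ∀ t, Link u v i j C R t → mv (NWs u i j ∪ C) t = mv (NWs u i j ∪ C) σ →
      ¬ Lt u (NWs u i j ∪ C) σ t)
    (hM : Ldr u v i' j' G F μ)
    (hfree : ∃ c₁ ∈ C, ∃ c₂ ∈ C, c₁ ≠ c₂ ∧ Free u (NWs u i j ∪ C) σ i' j' G F μ c₁ ∧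
      Free u (NWs u i j ∪ C) σ i' j' G F μ c₂)
    (hfull : ∃ c ∈ C, Full u (NWs u i j ∪ C) σ i' j' G μ c ∧
      ((∃ c' ∈ C, c' ≠ c ∧ Full u (NWs u i j ∪ C) σ i' j' G μ c') ∨ rk v i' j' = rk u i' j')) :
    ∃ t t', Link u v i j C R t ∧ Link u v i j C R t' ∧
      mv (NWs u i j ∪ C) t' < mv (NWs u i j ∪ C) t ∧ mv (NWs u i j ∪ C) t < mv (NWs u i j ∪ C) σ := by
  classical
  obtain ⟨c₁, hc₁, c₂, hc₂, hne, hQ₁, hQ₂⟩ := hfree
  have h2 : 2 ≤ C.card := Finset.one_lt_card.2 ⟨c₁, hc₁, c₂, hc₂, hne⟩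
  have hσ := mt_of_link hL
  have hdis : ∀ {a b : Fin n}, a ∈ C → b ∈ C → a ≠ b → ∀ x, x ∈ pth (NWs u i j ∪ C) σ a →
      x ∉ pth (NWs u i j ∪ C) σ b := fun ha hb hab x h3 h4 =>
    hab (pth_disj hσ (start_notMem hC hR ha) (start_notMem hC hR hb) x h3 h4)
  have hff : ∀ {a b : Fin n}, Full u (NWs u i j ∪ C) σ i' j' G μ a →
      Free u (NWs u i j ∪ C) σ i' j' G F μ b → a ≠ b := by
    rintro a b ha hb rfl
    exact absurd ha.1 (not_lt.2 hb.1)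
  have hcen : ∀ {a : Fin n}, a ∈ C → a ≠ en (NWs u i j ∪ C) σ a := by
    intro a ha h
    have h3 := mem_NEs.1 (hR (en_memR hC hR hσ ha))
    rw [← h] at h3
    exact absurd h3.1 (not_lt.2 (mem_SWs.1 (hC ha)).1)
  have hV : Disjoint (pth (NWs u i j ∪ C) σ c₁) (pth (NWs u i j ∪ C) σ c₂) :=
    Finset.disjoint_left.2 fun x h3 h4 => hdis hc₁ hc₂ hne x h3 h4
  by_cases hnd : ∃ c ∈ C, Full u (NWs u i j ∪ C) σ i' j' G μ c ∧ σ c ≠ en (NWs u i j ∪ C) σ c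
  · obtain ⟨c, hc, hF, hnd⟩ := hnd
    obtain ⟨d, hd, hde, hσd⟩ := pth_back hσ (en_mem hσ c) (hcen hc).symm
    have hdc : d ≠ c := by
      rintro rfl
      exact hnd hσd
    obtain ⟨p₁, q₁, X₁⟩ := exists_xc hC hR hσ hM hc hc₁ hF hQ₁ hd hde
    obtain ⟨p₂, q₂, X₂⟩ := exists_xc hC hR hσ hM hc hc₂ hF hQ₂ (self_mem hσ c) (hcen hc)
    obtain ⟨⟨a1, a2⟩, a3, a4⟩ := nondirect hC hR hg h2 hI huv hL hM hH hc hc₁ hc₂ hF hQ₁ hQ₂ hd hde
      hσd hdc X₁ X₂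
    exact double h2 hL hlex X₁ X₂ hV hdc (hdis hc hc₂ (hff hF hQ₂) d hd)
      (hdis hc hc₁ (hff hF hQ₁) c (self_mem hσ c)) (pth_sub hσ hd hde).2.2.1.ne'
      (pth_sub hσ (self_mem hσ c) (hcen hc)).2.2.1.ne' a1 a2 a3 a4
  · push Not at hnd
    obtain ⟨c, hc, hF, hor⟩ := hfull
    rcases hor with ⟨c', hc', hcc, hF'⟩ | hz
    · obtain ⟨p₁, q₁, X₁⟩ := exists_xc hC hR hσ hM hc hc₁ hF hQ₁ (self_mem hσ c) (hcen hc)
      obtain ⟨p₂, q₂, X₂⟩ := exists_xc hC hR hσ hM hc' hc₂ hF' hQ₂ (self_mem hσ c') (hcen hc')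
      obtain ⟨a1, a2⟩ := direct hC hR hg h2 hI huv hL hM hc hc₁ hF hQ₁ (hnd c hc hF) X₁
      obtain ⟨a3, a4⟩ := direct hC hR hg h2 hI huv hL hM hc' hc₂ hF' hQ₂ (hnd c' hc' hF') X₂
      exact double h2 hL hlex X₁ X₂ hV hcc.symm (hdis hc hc₂ (hff hF hQ₂) c (self_mem hσ c))
        (hdis hc' hc₁ (hff hF' hQ₁) c' (self_mem hσ c'))
        (pth_sub hσ (self_mem hσ c) (hcen hc)).2.2.1.ne'
        (pth_sub hσ (self_mem hσ c') (hcen hc')).2.2.1.ne' a1 a2 a3 a4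
    · exfalso
      obtain ⟨hcA, -, h3, h4⟩ := pth_sub hσ (self_mem hσ c) (hcen hc)
      have h5 := hnd c hc hF
      refine not_alive h3 h4 hz ((mem_SWs.1 (hC hc)).1.trans hj.le) ?_ hF.1 ?_
        (alive_of_link h2 hL c hcA h3.ne')
      · rw [h5]
        exact hF.2.1
      · rw [h5]
        exact hi.le.trans (mem_NEs.1 (hR (en_memR hC hR hσ hc))).2

theorem Lt.trans {s t w : Fin n → Fin n} (h1 : Lt u A s t) (h2 : Lt u A t w) : Lt u A s w := by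
  obtain ⟨d, hd, h3, h4⟩ := h1
  obtain ⟨d', hd', h5, h6⟩ := h2
  rcases lt_trichotomy d d' with h7 | h7 | h7
  · refine ⟨d', hd', fun y hy hy' => (h5 y hy hy').trans (h3 y hy (h7.trans hy')), ?_⟩
    rw [← h3 d' hd' h7]
    exact h6
  · subst h7
    exact ⟨d, hd, fun y hy hy' => (h5 y hy hy').trans (h3 y hy hy'), h4.trans h6⟩
  · refine ⟨d, hd, fun y hy hy' => (h5 y hy (h7.trans hy')).trans (h3 y hy hy'), ?_⟩
    rw [h5 d hd h7]
    exact h4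

theorem Lt.irrefl {s : Fin n → Fin n} (h : Lt u A s s) : False := by
  obtain ⟨d, -, -, h1⟩ := h
  exact lt_irrefl _ h1

/-- every nonempty set of maps has a maximal element -/
theorem exists_lexmax (u : Equiv.Perm (Fin n)) (A : Finset (Fin n)) (P : (Fin n → Fin n) → Prop)
    (h : ∃ s, P s) : ∃ s, P s ∧ ∀ t, P t → ¬ Lt u A s t := by
  have hw : WellFounded fun s t : Fin n → Fin n => Lt u A t s := by
    have : IsTrans (Fin n → Fin n) fun s t => Lt u A t s := ⟨fun a b c h1 h2 => Lt.trans h2 h1⟩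
    have : Std.Irrefl fun s t : Fin n → Fin n => Lt u A t s := ⟨fun a h1 => Lt.irrefl h1⟩
    exact Finite.wellFounded_of_trans_of_irrefl _
  obtain ⟨s, hs, h1⟩ := hw.has_min {s | P s} h
  exact ⟨s, hs, fun t ht => h1 t ht⟩

end Pool.Agent.H44.KL
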