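import Pool.Agent.H44.KL.CDefs
import Pool.Agent.H94.KL.Geo

/-!
# The double exchange
-/

set_option autoImplicit false

open Pool.Agent.H30.KL Pool.Agent.H94.KL

namespace Pool.Agent.H44.KL

variable {n : ℕ} {u v : Equiv.Perm (Fin n)} {i j : Fin n} {C R : Finset (Fin n)}
  {σ τ : Fin n → Fin n}

theorem link_of (hM : Mt u (NWs u i j ∪ C) (NWs u i j ∪ R) τ) (hR : Rk u v i j (NWs u i j ∪ C) τ)
    (hal : ∀ a ∈ NWs u i j ∪ C, τ a ≠ a → BruhatLE (u * Equiv.swap a (τ a)) v) :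
    Link u v i j C R τ :=
  ⟨hM.bij, fun a ha hne => ⟨(hM.up a ha hne).1, (hM.up a ha hne).2, Or.inl (hal a ha hne)⟩, hR⟩

theorem alive_of_link (h2 : 2 ≤ C.card) (h : Link u v i j C R σ) :
    ∀ a ∈ NWs u i j ∪ C, σ a ≠ a → BruhatLE (u * Equiv.swap a (σ a)) v := by
  intro a ha hne
  rcases (h.up a ha hne).2.2 with h1 | h1
  · exact h1
  · rw [h1.1, Finset.card_singleton] at h2
    omega

section

variable {V₁ V₂ : Finset (Fin n)} {c₁ r₁ d₁ p₁ q₁ c₂ r₂ d₂ p₂ q₂ : Fin n}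

/-- one exchange -/
theorem single (h2 : 2 ≤ C.card) (hL : Link u v i j C R σ)
    (hlex : ∀ t, Link u v i j C R t → mv (NWs u i j ∪ C) t = mv (NWs u i j ∪ C) σ →
      ¬ Lt u (NWs u i j ∪ C) σ t)
    (X : Xc u (NWs u i j ∪ C) σ V₁ c₁ r₁ d₁ p₁ q₁) (m : σ d₁ ≠ d₁)
    (al : BruhatLE (u * Equiv.swap d₁ (σ p₁)) v) (al' : BruhatLE (u * Equiv.swap q₁ (σ d₁)) v) :
    Link u v i j C R (xch V₁ σ d₁ p₁ q₁) ∧
      mv (NWs u i j ∪ C) (xch V₁ σ d₁ p₁ q₁) + (V₁.filter fun y => q₁ < y ∧ y ≤ p₁).card =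
        mv (NWs u i j ∪ C) σ ∧ 0 < (V₁.filter fun y => q₁ < y ∧ y ≤ p₁).card := by
  have hM := mt_of_link hL
  have h3 : Link u v i j C R (xch V₁ σ d₁ p₁ q₁) := by
    apply link_of (X.mt hM) (X.rk hM (rk_of_link hL))
    intro a ha hne
    rcases X.cases a with ⟨h3, h4⟩ | ⟨h3, h4⟩ | ⟨h3, h4⟩ | ⟨h3, h4⟩
    · rw [h4, h3]
      exact al
    · exact absurd h4 hne
    · rw [h4, h3]
      exact al'
    · rw [h4] at hne ⊢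
      exact alive_of_link h2 hL a ha hne
  have h4 := X.moved m
  refine ⟨h3, h4, ?_⟩
  by_contra h5
  have h6 : (V₁.filter fun y => q₁ < y ∧ y ≤ p₁).card = 0 := by omega
  refine hlex _ h3 ?_ X.lt
  unfold mv
  omega

/-- two exchanges -/
theorem double (h2 : 2 ≤ C.card) (hL : Link u v i j C R σ)
    (hlex : ∀ t, Link u v i j C R t → mv (NWs u i j ∪ C) t = mv (NWs u i j ∪ C) σ →
      ¬ Lt u (NWs u i j ∪ C) σ t)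
    (X₁ : Xc u (NWs u i j ∪ C) σ V₁ c₁ r₁ d₁ p₁ q₁) (X₂ : Xc u (NWs u i j ∪ C) σ V₂ c₂ r₂ d₂ p₂ q₂)
    (hV : Disjoint V₁ V₂) (hd : d₁ ≠ d₂) (h12 : d₁ ∉ V₂) (h21 : d₂ ∉ V₁)
    (m₁ : σ d₁ ≠ d₁) (m₂ : σ d₂ ≠ d₂)
    (a₁ : BruhatLE (u * Equiv.swap d₁ (σ p₁)) v) (b₁ : BruhatLE (u * Equiv.swap q₁ (σ d₁)) v)
    (a₂ : BruhatLE (u * Equiv.swap d₂ (σ p₂)) v) (b₂ : BruhatLE (u * Equiv.swap q₂ (σ d₂)) v) :
    ∃ t t', Link u v i j C R t ∧ Link u v i j C R t' ∧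
      mv (NWs u i j ∪ C) t' < mv (NWs u i j ∪ C) t ∧ mv (NWs u i j ∪ C) t < mv (NWs u i j ∪ C) σ := by
  obtain ⟨hL₁, e₁, w₁⟩ := single h2 hL hlex X₁ m₁ a₁ b₁
  obtain ⟨-, -, w₂⟩ := single h2 hL hlex X₂ m₂ a₂ b₂
  have hV₂ : ∀ x ∈ V₂, xch V₁ σ d₁ p₁ q₁ x = σ x := fun x hx =>
    X₁.off (fun h3 => h12 (h3 ▸ hx)) (fun h3 => Finset.disjoint_left.1 hV h3 hx)
  have hd₂ : xch V₁ σ d₁ p₁ q₁ d₂ = σ d₂ := X₁.off hd.symm h21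
  have X₃ : Xc u (NWs u i j ∪ C) (xch V₁ σ d₁ p₁ q₁) V₂ c₂ r₂ d₂ p₂ q₂ := X₂.congr hV₂ hd₂
  have hM₁ := mt_of_link hL₁
  have hL₃ : Link u v i j C R (xch V₂ (xch V₁ σ d₁ p₁ q₁) d₂ p₂ q₂) := by
    apply link_of (X₃.mt hM₁) (X₃.rk hM₁ (rk_of_link hL₁))
    intro a ha hne
    rcases X₃.cases a with ⟨h3, h4⟩ | ⟨h3, h4⟩ | ⟨h3, h4⟩ | ⟨h3, h4⟩
    · rw [h4, h3, hV₂ p₂ X₂.pV]
      exact a₂
    · exact absurd h4 hne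
    · rw [h4, h3, hd₂]
      exact b₂
    · rw [h4] at hne ⊢
      exact alive_of_link h2 hL₁ a ha hne
  have e₃ := X₃.moved (by rw [hd₂]; exact m₂)
  refine ⟨_, _, hL₁, hL₃, ?_, ?_⟩
  · unfold mv
    omega
  · omega

end

end Pool.Agent.H44.KL
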