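import Pool.Agent.H44.KL.Orb

/-!
# The exchange of a step with a path

`V` is a path of the matching `s`, `d → s d` a step (possibly `s d = d`) outside of `V`.  `p` is the last point of `V` left of `d`, `q` the last
point of `V` below `s d`.  The exchange replaces `p → s p`, `d → s d` by `d → s p`, `q → s d`; the points of `V` after `q` up to `p` become fixed.
-/

set_option autoImplicit false

open Pool.Agent.H30.KL

namespace Pool.Agent.H44.KL

variable {n : ℕ}

/-- the exchange -/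
def xch (V : Finset (Fin n)) (s : Fin n → Fin n) (d p q : Fin n) : Fin n → Fin n := fun y =>
  if y = d then s p else if y ∈ V ∧ q < y ∧ y ≤ p then y else if y = q then s d else s y

variable {u v : Equiv.Perm (Fin n)} {i j : Fin n} {A B V W : Finset (Fin n)} {s t : Fin n → Fin n}
  {c r d p q : Fin n}

/-- the data of an exchange -/
structure Xc (u : Equiv.Perm (Fin n)) (A : Finset (Fin n)) (s : Fin n → Fin n) (V : Finset (Fin n))
    (c r d p q : Fin n) : Prop where
  pt : Pt u A s V c r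
  dA : d ∈ A
  dV : d ∉ V
  pV : p ∈ V
  pr : p ≠ r
  pd : p < d
  dp : d < s p
  qV : q ∈ V
  qp : q ≤ p
  qs : u q < u (s d)
  sq : u (s d) < u (s q)

theorem Pt.mono' (h : Pt u A s V c r) {x y : Fin n} (hx : x ∈ V) (hy : y ∈ V) (hxy : x ≤ y) :
    u x ≤ u y := by
  rcases hxy.lt_or_eq with h1 | h1
  · exact (h.mono x hx y hy h1).le
  · rw [h1]

theorem Pt.lt_of_val (h : Pt u A s V c r) {x y : Fin n} (hx : x ∈ V) (hy : y ∈ V)
    (hxy : u x < u y) : x < y := by
  by_contra h1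
  exact absurd hxy (not_lt.2 (h.mono' hy hx (not_lt.1 h1)))

theorem Pt.congr (h : Pt u A s V c r) (hst : ∀ x ∈ V, t x = s x) : Pt u A t V c r := by
  refine ⟨h.hc, h.hr, h.ge, h.le, h.mono, ?_, ?_, ?_⟩
  · intro x hx hne
    rw [hst x hx]
    exact h.sub x hx hne
  · intro x hx hne
    obtain ⟨y, hy, h1, h2⟩ := h.back x hx hne
    exact ⟨y, hy, h1, (hst y hy).trans h2⟩
  · intro x hx y hy hxy
    rw [hst x hx]
    exact h.next x hx y hy hxy

theorem Xc.congr (h : Xc u A s V c r d p q) (hst : ∀ x ∈ V, t x = s x) (hd : t d = s d) :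
    Xc u A t V c r d p q := by
  refine ⟨h.pt.congr hst, h.dA, h.dV, h.pV, h.pr, h.pd, ?_, h.qV, h.qp, ?_, ?_⟩
  · rw [hst p h.pV]
    exact h.dp
  · rw [hd]
    exact h.qs
  · rw [hd, hst q h.qV]
    exact h.sq

theorem Xc.qr (h : Xc u A s V c r d p q) : q ≠ r := by
  intro h1
  exact h.pr (le_antisymm (h.pt.le p h.pV) (h1 ▸ h.qp))

/-- `s d` lies below `s p` -/
theorem Xc.sp (h : Xc u A s V c r d p q) : u (s d) < u (s p) := by
  refine lt_of_lt_of_le h.sq ?_
  rcases h.qp.lt_or_eq with h1 | h1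
  · have h2 := h.pt.next q h.qV p h.pV h1
    have h3 := h.pt.sub p h.pV h.pr
    have h4 := h.pt.sub q h.qV h.qr
    exact h.pt.mono' h4.2.1 h3.2.1 (h2.trans h3.2.2.le)
  · rw [h1]

theorem xch_d : xch V s d p q d = s p := by
  unfold xch
  rw [if_pos rfl]

theorem Xc.xch_q (h : Xc u A s V c r d p q) : xch V s d p q q = s d := by
  have h1 : q ≠ d := fun h2 => h.dV (h2 ▸ h.qV)
  unfold xch
  rw [if_neg h1, if_neg (fun h1 => lt_irrefl _ h1.2.1), if_pos rfl]

theorem Xc.xch_mid (h : Xc u A s V c r d p q) {y : Fin n} (hy : y ∈ V) (h1 : q < y) (h2 : y ≤ p) :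
    xch V s d p q y = y := by
  have h0 : y ≠ d := fun h3 => h.dV (h3 ▸ hy)
  unfold xch
  rw [if_neg h0, if_pos ⟨hy, h1, h2⟩]

theorem Xc.xch_out (h : Xc u A s V c r d p q) {y : Fin n} (hd : y ≠ d)
    (hy : ¬ (y ∈ V ∧ q ≤ y ∧ y ≤ p)) : xch V s d p q y = s y := by
  unfold xch
  rw [if_neg hd, if_neg (fun h1 => hy ⟨h1.1, h1.2.1.le, h1.2.2⟩), if_neg]
  rintro rfl
  exact hy ⟨h.qV, le_rfl, h.qp⟩

theorem Xc.cases (h : Xc u A s V c r d p q) (y : Fin n) :
    (y = d ∧ xch V s d p q y = s p) ∨ ((y ∈ V ∧ q < y ∧ y ≤ p) ∧ xch V s d p q y = y) ∨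
      (y = q ∧ xch V s d p q y = s d) ∨
      ((y ≠ d ∧ ¬ (y ∈ V ∧ q ≤ y ∧ y ≤ p)) ∧ xch V s d p q y = s y) := by
  by_cases h1 : y = d
  · left
    exact ⟨h1, h1 ▸ xch_d⟩
  · by_cases h2 : y ∈ V ∧ q ≤ y ∧ y ≤ p
    · rcases h2.2.1.lt_or_eq with h3 | h3
      · right
        left
        exact ⟨⟨h2.1, h3, h2.2.2⟩, h.xch_mid h2.1 h3 h2.2.2⟩
      · right
        right
        left
        exact ⟨h3.symm, h3 ▸ h.xch_q⟩
    · right
      right
      right
      exact ⟨⟨h1, h2⟩, h.xch_out h1 h2⟩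

/-- the exchange does not change `s` outside of `V ∪ {d}` -/
theorem Xc.off (h : Xc u A s V c r d p q) {y : Fin n} (hd : y ≠ d) (hV : y ∉ V) :
    xch V s d p q y = s y :=
  h.xch_out hd fun h1 => hV h1.1

/-- the exchange is a matching -/
theorem Xc.mt (h : Xc u A s V c r d p q) (hM : Mt u A B s) : Mt u A B (xch V s d p q) := by
  apply Mt.of_surj hM.card
  · intro b hb
    obtain ⟨a, ha, hab⟩ := hM.surj hb
    by_cases h1 : a = d
    · exact ⟨q, (h.pt.sub q h.qV h.qr).1, by rw [h.xch_q, ← h1, hab]⟩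
    · by_cases h2 : a ∈ V ∧ q ≤ a ∧ a ≤ p
      · rcases h2.2.2.lt_or_eq with h3 | h3
        · have h4 := h.pt.next a h2.1 p h.pV h3
          have h5 : a ≠ r := fun h6 => absurd (h.pt.le p h.pV) (not_le.2 (h6 ▸ h3))
          have h6 := h.pt.sub a h2.1 h5
          have h7 : s a ≠ r := fun h8 => h.pr (le_antisymm (h.pt.le p h.pV) (h8 ▸ h4))
          refine ⟨s a, (h.pt.sub (s a) h6.2.1 h7).1, ?_⟩
          rw [h.xch_mid h6.2.1 (lt_of_le_of_lt h2.2.1 h6.2.2) h4, hab]
        · exact ⟨d, h.dA, by rw [xch_d, ← h3, hab]⟩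
      · exact ⟨a, ha, by rw [h.xch_out h1 h2, hab]⟩
  · intro a ha hne
    rcases h.cases a with ⟨h1, h2⟩ | ⟨h1, h2⟩ | ⟨h1, h2⟩ | ⟨h1, h2⟩
    · rw [h2, h1]
      exact ⟨h.dp, lt_of_le_of_lt (hM.le_val h.dA) h.sp⟩
    · exact absurd h2 hne
    · rw [h2, h1]
      exact ⟨lt_of_le_of_lt h.qp (lt_of_lt_of_le h.pd (hM.le h.dA)), h.qs⟩
    · rw [h2] at hne ⊢
      exact hM.up a ha hne

/-- the exchange is larger -/
theorem Xc.lt (h : Xc u A s V c r d p q) : Lt u A s (xch V s d p q) := by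
  refine ⟨d, h.dA, fun y _ hy => ?_, ?_⟩
  · apply h.xch_out hy.ne'
    rintro ⟨-, -, h2⟩
    exact absurd (h2.trans_lt h.pd) (not_lt.2 hy.le)
  · rw [xch_d]
    exact h.sp

/-- the exchange does not increase the number of cells of any box -/
theorem Xc.cnt (h : Xc u A s V c r d p q) (hM : Mt u A B s) (i' j' : Fin n) :
    (A.filter fun a => a ≤ j' ∧ i' ≤ u (xch V s d p q a)).card ≤
      (A.filter fun a => a ≤ j' ∧ i' ≤ u (s a)).card := by
  classical
  have hM' := h.mt hM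
  by_cases h0 : j' < d ∧ i' ≤ u (s d)
  · apply Finset.card_le_card
    intro a ha
    rw [Finset.mem_filter] at ha ⊢
    obtain ⟨ha, haj, hai⟩ := ha
    refine ⟨ha, haj, ?_⟩
    rcases h.cases a with ⟨h1, h2⟩ | ⟨h1, h2⟩ | ⟨h1, h2⟩ | ⟨h1, h2⟩
    · exact absurd (h1 ▸ haj) (not_le.2 h0.1)
    · rw [h2] at hai
      exact hai.trans (hM.le_val ha)
    · rw [h1]
      exact h0.2.trans h.sq.le
    · rwa [h2] at hai
  · rw [← Finset.card_image_of_injOn (s := A.filter fun a => a ≤ j' ∧ i' ≤ u (xch V s d p q a))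
      (f := xch V s d p q) (fun x hx y hy hxy => hM'.inj (Finset.mem_filter.1 hx).1
        (Finset.mem_filter.1 hy).1 hxy),
      ← Finset.card_image_of_injOn (s := A.filter fun a => a ≤ j' ∧ i' ≤ u (s a))
      (f := s) (fun x hx y hy hxy => hM.inj (Finset.mem_filter.1 hx).1
        (Finset.mem_filter.1 hy).1 hxy)]
    apply Finset.card_le_card
    intro b hb
    rw [Finset.mem_image] at hb ⊢
    obtain ⟨a, ha, hab⟩ := hb
    rw [Finset.mem_filter] at ha
    obtain ⟨ha, haj, hai⟩ := ha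
    rcases h.cases a with ⟨h1, h2⟩ | ⟨h1, h2⟩ | ⟨h1, h2⟩ | ⟨h1, h2⟩
    · refine ⟨p, Finset.mem_filter.2 ⟨(h.pt.sub p h.pV h.pr).1, h.pd.le.trans (h1 ▸ haj), ?_⟩, ?_⟩
      · rw [← h2]
        exact hai
      · rw [← hab, h2]
    · have h3 : a ≠ c := fun h4 => absurd (h.pt.ge q h.qV) (not_le.2 (h4 ▸ h1.2.1))
      obtain ⟨y, hy, hyr, hya⟩ := h.pt.back a h1.1 h3
      have h4 := h.pt.sub y hy hyr
      refine ⟨y, Finset.mem_filter.2 ⟨h4.1, (hya ▸ h4.2.2.le).trans haj, ?_⟩, ?_⟩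
      · rw [hya, ← h2]
        exact hai
      · rw [hya, ← hab, h2]
    · rw [h2] at hai hab
      have h3 : d ≤ j' := by
        by_contra h4
        exact h0 ⟨not_le.1 h4, hai⟩
      exact ⟨d, Finset.mem_filter.2 ⟨h.dA, h3, hai⟩, hab⟩
    · rw [h2] at hai hab
      exact ⟨a, Finset.mem_filter.2 ⟨ha, haj, hai⟩, hab⟩

theorem Xc.rk (h : Xc u A s V c r d p q) (hM : Mt u A B s) (hR : Rk u v i j A s) :
    Rk u v i j A (xch V s d p q) :=
  fun i' j' h1 h2 h3 => (h.cnt hM i' j').trans (hR i' j' h1 h2 h3)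

/-- the number of moved points -/
theorem Xc.moved (h : Xc u A s V c r d p q) (hd : s d ≠ d) :
    (A.filter fun a => xch V s d p q a ≠ a).card + (V.filter fun y => q < y ∧ y ≤ p).card =
      (A.filter fun a => s a ≠ a).card := by
  classical
  rw [← Finset.card_union_of_disjoint]
  · congr 1
    ext a
    rw [Finset.mem_union, Finset.mem_filter, Finset.mem_filter, Finset.mem_filter]
    rcases h.cases a with ⟨h1, h2⟩ | ⟨h1, h2⟩ | ⟨h1, h2⟩ | ⟨h1, h2⟩
    · subst h1
      constructor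
      · rintro (⟨h3, -⟩ | ⟨h3, -⟩)
        · exact ⟨h3, hd⟩
        · exact absurd h3 h.dV
      · rintro ⟨h3, -⟩
        left
        refine ⟨h3, ?_⟩
        rw [h2]
        exact h.dp.ne'
    · have h3 : a ≠ r := fun h4 => h.pr (le_antisymm (h.pt.le p h.pV) (h4 ▸ h1.2.2))
      have h4 := h.pt.sub a h1.1 h3
      constructor
      · intro _
        exact ⟨h4.1, h4.2.2.ne'⟩
      · intro _
        right
        exact h1
    · subst h1
      have h3 := h.pt.sub a h.qV h.qr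
      constructor
      · intro _
        exact ⟨h3.1, h3.2.2.ne'⟩
      · intro _
        left
        refine ⟨h3.1, ?_⟩
        rw [h2]
        intro h5
        exact absurd h.qs (by rw [h5]; exact lt_irrefl _)
    · rw [h2]
      constructor
      · rintro (h3 | ⟨h3, h4, h5⟩)
        · exact h3
        · exact absurd ⟨h3, h4.le, h5⟩ h1.2
      · intro h3
        left
        exact h3
  · rw [Finset.disjoint_left]
    intro a ha hb
    rw [Finset.mem_filter] at ha hb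
    exact ha.2 (h.xch_mid hb.1 hb.2.1 hb.2.2)

/-- the last point of the path left of `d` -/
theorem Pt.exists_p (h : Pt u A s V c r) (hcd : c < d) (hdr : d < r) (hd : d ∉ V) :
    ∃ p ∈ V, p ≠ r ∧ p < d ∧ d < s p := by
  classical
  have hne : (V.filter fun y => y < d).Nonempty := ⟨c, Finset.mem_filter.2 ⟨h.hc, hcd⟩⟩
  set p := (V.filter fun y => y < d).max' hne with hp
  have hpm := Finset.max'_mem _ hne
  rw [← hp, Finset.mem_filter] at hpm
  have hpr : p ≠ r := fun h1 => absurd hpm.2 (not_lt.2 (h1 ▸ hdr.le))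
  obtain ⟨h1, h2, h3⟩ := h.sub p hpm.1 hpr
  refine ⟨p, hpm.1, hpr, hpm.2, ?_⟩
  rcases lt_trichotomy d (s p) with h4 | h4 | h4
  · exact h4
  · exact absurd (h4 ▸ h2) hd
  · have h5 : s p ≤ p := Finset.le_max' _ _ (Finset.mem_filter.2 ⟨h2, h4⟩)
    exact absurd h3 (not_lt.2 h5)

/-- the last point of the path below `e` -/
theorem Pt.exists_q (h : Pt u A s V c r) {e : Fin n} (hce : u c < u e) (he : e ∉ V) {p : Fin n}
    (hp : p ∈ V) (hpr : p ≠ r) (hep : u e < u (s p)) : ∃ q ∈ V, q ≤ p ∧ u q < u e ∧ u e < u (s q) := by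
  classical
  have hne : (V.filter fun y => u y < u e).Nonempty := ⟨c, Finset.mem_filter.2 ⟨h.hc, hce⟩⟩
  set q := (V.filter fun y => u y < u e).max' hne with hq
  have hqm := Finset.max'_mem _ hne
  rw [← hq, Finset.mem_filter] at hqm
  have hqp : q ≤ p := by
    by_contra h1
    have h2 := h.next p hp q hqm.1 (not_le.1 h1)
    have h3 := h.mono' (h.sub p hp hpr).2.1 hqm.1 h2
    exact absurd hqm.2 (not_lt.2 (hep.le.trans h3))
  have hqr : q ≠ r := fun h1 => hpr (le_antisymm (h.le p hp) (h1 ▸ hqp))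
  obtain ⟨h1, h2, h3⟩ := h.sub q hqm.1 hqr
  refine ⟨q, hqm.1, hqp, hqm.2, ?_⟩
  rcases lt_trichotomy (u e) (u (s q)) with h4 | h4 | h4
  · exact h4
  · exact absurd (u.injective h4 ▸ h2) he
  · have h5 : s q ≤ q := Finset.le_max' _ _ (Finset.mem_filter.2 ⟨h2, h4⟩)
    exact absurd h3 (not_lt.2 h5)

/-- the lowest property: in a maximal matching a fixed point right of the start of a path lies above the next point of the path -/
theorem above_of_max (hM : Mt u A B s) (hmax : ∀ t, Mt u A B t → ¬ Lt u A s t)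
    (hV : Pt u A s V c r) {x : Fin n} (hxA : x ∈ A) (hxs : s x = x) (hxV : x ∉ V)
    (hux : u c < u x) {p : Fin n} (hp : p ∈ V) (hpr : p ≠ r) (hpx : p < x) (hxp : x < s p) :
    u (s p) < u x := by
  rcases lt_trichotomy (u x) (u (s p)) with h1 | h1 | h1
  · exfalso
    obtain ⟨q, hq, hqp, hq1, hq2⟩ := hV.exists_q hux hxV hp hpr h1
    have hX : Xc u A s V c r x p q :=
      ⟨hV, hxA, hxV, hp, hpr, hpx, hxp, hq, hqp, by rw [hxs]; exact hq1, by rw [hxs]; exact hq2⟩
    exact hmax _ (hX.mt hM) hX.lt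
  · exact absurd (u.injective h1) hxp.ne
  · exact h1

end Pool.Agent.H44.KL
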