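import Pool.Agent.H44.KL.BoxAux
import Pool.Agent.H61.KL.ClassMin

/-!
# Necessity of the class criterion, from the counting lemma and the leaders
-/

set_option autoImplicit false

open Pool.Agent.H30.KL Pool.Agent.H94.KL Pool.Agent.H61.KL

namespace Pool.Agent.H44.KL

variable {n : ℕ} {u v : Equiv.Perm (Fin n)}

theorem nec_aux (huv : BruhatLE u v) (hH : Hom u v)
    (hcnt : ∀ (i j : Fin n) (C R : Finset (Fin n)), C ⊆ SWs u i j → R ⊆ NEs u i j →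
      C.card = R.card → rk u i j + C.card = rk v i j + 1 → Irr u v i j C R →
      ∀ (i' j' : Fin n) (G F : Finset (Fin n)) (σ μ : Fin n → Fin n), i' < i → j < j' →
      Mt u (NWs u i j ∪ C) (NWs u i j ∪ R) σ → Ldr u v i' j' G F μ →
      (∀ y ∈ G, μ y ≠ y → y ∈ NWs u i j ∪ C ∧ μ y = σ y) →
      (∀ t, Mt u (NWs u i j ∪ C) (NWs u i j ∪ R) t → ¬ Lt u (NWs u i j ∪ C) σ t) ∨
      ((∃ c₁ ∈ C, ∃ c₂ ∈ C, c₁ ≠ c₂ ∧ Free u (NWs u i j ∪ C) σ i' j' G F μ c₁ ∧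
        Free u (NWs u i j ∪ C) σ i' j' G F μ c₂) ∧
        ∃ c ∈ C, Full u (NWs u i j ∪ C) σ i' j' G μ c ∧
          ((∃ c' ∈ C, c' ≠ c ∧ Full u (NWs u i j ∪ C) σ i' j' G μ c') ∨
            rk v i' j' = rk u i' j')))
    (hlead : ∀ (i j : Fin n) (C R : Finset (Fin n)), C ⊆ SWs u i j → R ⊆ NEs u i j →
      C.card = R.card → rk u i j + C.card = rk v i j + 1 →
      ∀ σ : Fin n → Fin n, Link u v i j C R σ →
      (∀ t, Link u v i j C R t → mv (NWs u i j ∪ C) t = mv (NWs u i j ∪ C) σ →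
        ¬ Lt u (NWs u i j ∪ C) σ t) → ∃ i' j' G F μ, Ldr u v i' j' G F μ ∧
          ∀ y ∈ G, μ y ≠ y → y ∈ NWs u i j ∪ C ∧ μ y = σ y) : Crit u v := by
  intro C R e₀ hCR he₀
  obtain ⟨e, h1, ⟨hC, hR, hg⟩, h3, h4⟩ := exists_min he₀
  refine ⟨e, h1, h3, ?_⟩
  by_cases hI : Irr u v e.1 e.2 C R
  · right
    refine box_aux hC hR hg hI huv hH ?_ (hcnt e.1 e.2 C R hC hR hCR hg hI)
      (hlead e.1 e.2 C R hC hR hCR hg)
    intro i' j' h5 h6 h7 h8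
    refine h4 (i', j') ⟨h6, h7, h8⟩ ?_
    rcases h5 with h5 | h5
    · exact Or.inr h5
    · exact Or.inl h5
  · exact Or.inl hI

end Pool.Agent.H44.KL
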