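import Pool.Agent.H44.KL.Mt

/-!
# Paths of a matching
-/

set_option autoImplicit false

open Pool.Agent.H30.KL

namespace Pool.Agent.H44.KL

variable {n : ℕ}

/-- `V` is the set of the points of a path `c → s c → … → r` of the matching `s` on `A` -/
structure Pt (u : Equiv.Perm (Fin n)) (A : Finset (Fin n)) (s : Fin n → Fin n) (V : Finset (Fin n))
    (c r : Fin n) : Prop where
  hc : c ∈ V
  hr : r ∈ V
  ge : ∀ x ∈ V, c ≤ x
  le : ∀ x ∈ V, x ≤ r
  mono : ∀ x ∈ V, ∀ y ∈ V, x < y → u x < u y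
  sub : ∀ x ∈ V, x ≠ r → x ∈ A ∧ s x ∈ V ∧ x < s x
  back : ∀ x ∈ V, x ≠ c → ∃ y ∈ V, y ≠ r ∧ s y = x
  next : ∀ x ∈ V, ∀ y ∈ V, x < y → s x ≤ y

/-- one step -/
def nx (A : Finset (Fin n)) (s : Fin n → Fin n) (a : Fin n) : Fin n := if a ∈ A then s a else a

/-- the points of the path from `c` -/
def pth (A : Finset (Fin n)) (s : Fin n → Fin n) (c : Fin n) : Finset (Fin n) :=
  (Finset.range (n + 1)).image fun k => (nx A s)^[k] c

/-- the end of the path from `c` -/
def en (A : Finset (Fin n)) (s : Fin n → Fin n) (c : Fin n) : Fin n := (nx A s)^[n] c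

variable {u : Equiv.Perm (Fin n)} {A B V W : Finset (Fin n)} {s t : Fin n → Fin n} {c r : Fin n}

theorem nx_of_ne {a : Fin n} (h : nx A s a ≠ a) : a ∈ A ∧ nx A s a = s a := by
  unfold nx at h ⊢
  by_cases ha : a ∈ A
  · rw [if_pos ha]
    exact ⟨ha, rfl⟩
  · rw [if_neg ha] at h
    exact absurd rfl h

theorem le_nx (h : Mt u A B s) (a : Fin n) : a ≤ nx A s a := by
  unfold nx
  split_ifs with ha
  · exact h.le ha
  · exact le_rfl

theorem val_le_nx (h : Mt u A B s) (a : Fin n) : u a ≤ u (nx A s a) := by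
  unfold nx
  split_ifs with ha
  · exact h.le_val ha
  · exact le_rfl

theorem lt_nx (h : Mt u A B s) {a : Fin n} (ha : nx A s a ≠ a) : a < nx A s a ∧ u a < u (nx A s a) := by
  obtain ⟨h1, h2⟩ := nx_of_ne ha
  rw [h2] at ha ⊢
  exact h.up a h1 ha

theorem it_succ (c : Fin n) (k : ℕ) : (nx A s)^[k + 1] c = nx A s ((nx A s)^[k] c) :=
  Function.iterate_succ_apply' _ _ _

theorem it_mono (h : Mt u A B s) (c : Fin n) : Monotone fun k => (nx A s)^[k] c := by
  apply monotone_nat_of_le_succ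
  intro k
  simp only [it_succ]
  exact le_nx h _

theorem it_mono_val (h : Mt u A B s) (c : Fin n) : Monotone fun k => u ((nx A s)^[k] c) := by
  apply monotone_nat_of_le_succ
  intro k
  simp only [it_succ]
  exact val_le_nx h _

theorem it_stab {c : Fin n} {k : ℕ} (hk : nx A s ((nx A s)^[k] c) = (nx A s)^[k] c) :
    ∀ l, k ≤ l → (nx A s)^[l] c = (nx A s)^[k] c := by
  intro l hl
  induction l, hl using Nat.le_induction with
  | base => rfl
  | succ m _ ih => rw [it_succ, ih, hk]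

theorem nx_en (h : Mt u A B s) (c : Fin n) : nx A s (en A s c) = en A s c := by
  by_contra hne
  have h1 : ∀ k, k ≤ n → nx A s ((nx A s)^[k] c) ≠ (nx A s)^[k] c := by
    intro k hk h2
    apply hne
    have h3 := it_stab h2 n hk
    unfold en
    rw [h3, h2]
  have h2 : ∀ k, k ≤ n → k ≤ (((nx A s)^[k] c : Fin n) : ℕ) := by
    intro k
    induction k with
    | zero => intro _; exact Nat.zero_le _
    | succ m ih =>
      intro hm
      have h3 := ih (by omega)
      have h4 := (lt_nx h (h1 m (by omega))).1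
      rw [it_succ]
      have h5 : (((nx A s)^[m] c : Fin n) : ℕ) < ((nx A s ((nx A s)^[m] c) : Fin n) : ℕ) := h4
      omega
  have h3 := h2 n le_rfl
  have h4 := ((nx A s)^[n] c).isLt
  omega

theorem mem_pth (h : Mt u A B s) {x : Fin n} : x ∈ pth A s c ↔ ∃ k, (nx A s)^[k] c = x := by
  unfold pth
  rw [Finset.mem_image]
  constructor
  · rintro ⟨k, -, hk⟩
    exact ⟨k, hk⟩
  · rintro ⟨k, hk⟩
    by_cases hkn : k ≤ n
    · exact ⟨k, Finset.mem_range.2 (by omega), hk⟩
    · refine ⟨n, Finset.mem_range.2 (by omega), ?_⟩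
      rw [← hk]
      exact (it_stab (nx_en h c) k (by omega)).symm

theorem en_mem (h : Mt u A B s) (c : Fin n) : en A s c ∈ pth A s c :=
  (mem_pth h).2 ⟨n, rfl⟩

theorem self_mem (h : Mt u A B s) (c : Fin n) : c ∈ pth A s c :=
  (mem_pth h).2 ⟨0, rfl⟩

theorem le_en (h : Mt u A B s) {c x : Fin n} (hx : x ∈ pth A s c) : x ≤ en A s c := by
  obtain ⟨k, hk⟩ := (mem_pth h).1 hx
  rw [← hk]
  by_cases hkn : k ≤ n
  · exact it_mono h c hkn
  · rw [it_stab (nx_en h c) k (by omega)]
    exact le_rfl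

theorem eq_en_of_fix (h : Mt u A B s) {c x : Fin n} (hx : x ∈ pth A s c) (hf : nx A s x = x) :
    x = en A s c := by
  obtain ⟨k, hk⟩ := (mem_pth h).1 hx
  subst hk
  by_cases hkn : k ≤ n
  · exact (it_stab hf n hkn).symm
  · exact it_stab (nx_en h c) k (by omega)

/-- every point of the path except for the last one is moved -/
theorem pth_sub (h : Mt u A B s) {c x : Fin n} (hx : x ∈ pth A s c) (hne : x ≠ en A s c) :
    x ∈ A ∧ s x ∈ pth A s c ∧ x < s x ∧ u x < u (s x) := by
  have h1 : nx A s x ≠ x := fun hf => hne (eq_en_of_fix h hx hf)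
  obtain ⟨h2, h3⟩ := nx_of_ne h1
  obtain ⟨k, hk⟩ := (mem_pth h).1 hx
  have h4 := lt_nx h h1
  rw [h3] at h4
  refine ⟨h2, (mem_pth h).2 ⟨k + 1, ?_⟩, h4⟩
  rw [it_succ, hk, h3]

theorem pth_back (h : Mt u A B s) {c x : Fin n} (hx : x ∈ pth A s c) (hne : x ≠ c) :
    ∃ y ∈ pth A s c, y ≠ en A s c ∧ s y = x := by
  classical
  obtain ⟨k, hk⟩ := (mem_pth h).1 hx
  have hex : ∃ k, (nx A s)^[k] c = x := ⟨k, hk⟩
  have h1 := Nat.find_spec hex
  have h2 : ∀ m < Nat.find hex, (nx A s)^[m] c ≠ x := fun m hm => Nat.find_min hex hm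
  rcases Nat.exists_eq_succ_of_ne_zero (n := Nat.find hex) (by
    intro h0
    rw [h0] at h1
    exact hne h1.symm) with ⟨m, hm⟩
  rw [hm, Nat.succ_eq_add_one, it_succ] at h1
  have h3 := h2 m (by omega)
  have h4 : nx A s ((nx A s)^[m] c) ≠ (nx A s)^[m] c := by
    rw [h1]
    exact fun h5 => h3 h5.symm
  refine ⟨(nx A s)^[m] c, (mem_pth h).2 ⟨m, rfl⟩, ?_, ?_⟩
  · intro h5
    rw [h5] at h4
    exact h4 (nx_en h c)
  · rw [← (nx_of_ne h4).2]
    exact h1

theorem pth_next (h : Mt u A B s) {c x y : Fin n} (hx : x ∈ pth A s c) (hy : y ∈ pth A s c)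
    (hxy : x < y) : s x ≤ y ∧ u x < u y := by
  have hne : x ≠ en A s c := by
    rintro rfl
    exact absurd (le_en h hy) (not_le.2 hxy)
  obtain ⟨h1, h2, h3, h4⟩ := pth_sub h hx hne
  obtain ⟨k, hk⟩ := (mem_pth h).1 hx
  obtain ⟨l, hl⟩ := (mem_pth h).1 hy
  have hkl : k < l := by
    by_contra hlk
    have := it_mono h c (not_lt.1 hlk)
    simp only [hk, hl] at this
    exact absurd this (not_le.2 hxy)
  have h5 : s x = (nx A s)^[k + 1] c := by
    rw [it_succ, hk]
    have h6 : nx A s x ≠ x := fun hf => hne (eq_en_of_fix h hx hf)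
    exact (nx_of_ne h6).2.symm
  have h6 := it_mono h c (Nat.succ_le_of_lt hkl)
  have h7 := it_mono_val h c (Nat.succ_le_of_lt hkl)
  simp only [Nat.succ_eq_add_one] at h6 h7
  rw [← h5, hl] at h6 h7
  exact ⟨h6, lt_of_lt_of_le h4 h7⟩

theorem ge_pth (h : Mt u A B s) {c x : Fin n} (hx : x ∈ pth A s c) : c ≤ x := by
  obtain ⟨k, hk⟩ := (mem_pth h).1 hx
  have := it_mono h c (Nat.zero_le k)
  simp only [hk] at this
  exact this

theorem pt_pth (h : Mt u A B s) (c : Fin n) : Pt u A s (pth A s c) c (en A s c) :=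
  ⟨self_mem h c, en_mem h c, fun _ hx => ge_pth h hx, fun _ hx => le_en h hx,
    fun _ hx _ hy hxy => (pth_next h hx hy hxy).2,
    fun _ hx hne => ⟨(pth_sub h hx hne).1, (pth_sub h hx hne).2.1, (pth_sub h hx hne).2.2.1⟩,
    fun _ hx hne => pth_back h hx hne, fun _ hx _ hy hxy => (pth_next h hx hy hxy).1⟩

/-- the path from a point of `A \ B` ends in `B \ A` -/
theorem en_spec (h : Mt u A B s) {c : Fin n} (hA : c ∈ A) (hB : c ∉ B) :
    en A s c ∈ B ∧ en A s c ∉ A := by
  have h1 : en A s c ∉ A := by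
    intro h2
    have h3 : s (en A s c) = en A s c := by
      have := nx_en h c
      unfold nx at this
      rwa [if_pos h2] at this
    by_cases hc : en A s c = c
    · rw [hc] at h3
      exact hB (h3 ▸ h.mem hA)
    · obtain ⟨y, hy, hy1, hy2⟩ := pth_back h (en_mem h c) hc
      exact hy1 (h.inj (pth_sub h hy hy1).1 h2 (hy2.trans h3.symm))
  refine ⟨?_, h1⟩
  have hc : en A s c ≠ c := fun h2 => h1 (h2.symm ▸ hA)
  obtain ⟨y, hy, hy1, hy2⟩ := pth_back h (en_mem h c) hc
  rw [← hy2]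
  exact h.mem (pth_sub h hy hy1).1

/-- different starts have disjoint paths -/
theorem pth_disj (h : Mt u A B s) {c c' : Fin n} (hc : c ∉ B) (hc' : c' ∉ B) :
    ∀ x, x ∈ pth A s c → x ∈ pth A s c' → c = c' := by
  intro x
  induction x using WellFoundedLT.induction with
  | ind x ih =>
    intro hx hx'
    by_cases h1 : x = c
    · by_contra hne
      obtain ⟨y, hy, hy1, hy2⟩ := pth_back h hx' (fun h2 => hne (h1.symm.trans h2))
      apply hc
      rw [← h1, ← hy2]
      exact h.mem (pth_sub h hy hy1).1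
    · by_cases h2 : x = c'
      · by_contra hne
        obtain ⟨y, hy, hy1, hy2⟩ := pth_back h hx h1
        apply hc'
        rw [← h2, ← hy2]
        exact h.mem (pth_sub h hy hy1).1
      · obtain ⟨y, hy, hy1, hy2⟩ := pth_back h hx h1
        obtain ⟨y', hy', hy1', hy2'⟩ := pth_back h hx' h2
        have h3 : y = y' := h.inj (pth_sub h hy hy1).1 (pth_sub h hy' hy1').1 (hy2.trans hy2'.symm)
        subst h3
        exact ih y (by rw [← hy2]; exact (pth_sub h hy hy1).2.2.1) hy hy'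

/-- a point of `A` whose image lies on the path lies on the path -/
theorem pth_pre (h : Mt u A B s) {c a : Fin n} (hc : c ∉ B) (ha : a ∈ A) (hs : s a ∈ pth A s c) :
    s a = a ∨ a ∈ pth A s c := by
  by_cases h1 : s a = c
  · exact absurd (h1 ▸ h.mem ha) hc
  · obtain ⟨y, hy, hy1, hy2⟩ := pth_back h hs h1
    right
    rw [← h.inj (pth_sub h hy hy1).1 ha hy2]
    exact hy

/-- every moved point lies on a path -/
theorem pth_cover (h : Mt u A B s) : ∀ a, a ∈ A → s a ≠ a → ∃ c ∈ A, c ∉ B ∧ a ∈ pth A s c := by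
  intro a
  induction a using WellFoundedLT.induction with
  | ind a ih =>
    intro ha hne
    by_cases hB : a ∈ B
    · obtain ⟨b, hb, hba⟩ := h.surj hB
      have h1 : s b ≠ b := by
        intro h2
        have h3 : b = a := h2.symm.trans hba
        exact hne (h3 ▸ h2)
      have h2 : b < a := hba ▸ (h.up b hb h1).1
      obtain ⟨c, hc, hcB, hbc⟩ := ih b h2 hb h1
      refine ⟨c, hc, hcB, ?_⟩
      have h3 : b ≠ en A s c := by
        intro h4
        exact (en_spec h hc hcB).2 (h4 ▸ hb)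
      rw [← hba]
      exact (pth_sub h hbc h3).2.1
    · exact ⟨a, ha, hB, self_mem h a⟩

end Pool.Agent.H44.KL
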