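import Pool.Agent.H44.KL.NecCrit
import Pool.Agent.H86.KL.UDefs

/-!
# The types of the lex-maximal linkings of their length
-/

set_option autoImplicit false

open Pool.Agent.H30.KL Pool.Agent.H94.KL Pool.Agent.H61.KL Pool.Agent.H86.KL

namespace Pool.Agent.H44.KL

variable {n : ℕ} {u v : Equiv.Perm (Fin n)} {i j i' j' : Fin n} {C R G F : Finset (Fin n)}
  {s μ : Fin n → Fin n}

/-- in columns `≤ j'` the map `s` jumps over every point to the right of `c₁` with a lower value -/
theorem jump (hs : Mt u (NWs u i j ∪ C) (NWs u i j ∪ R) s) (hR : R ⊆ NEs u i j) {a : Fin n} (haj : a ≤ j) {c₁ : Fin n} (hlt : u a < u (s c₁)) :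
    ∀ (N : ℕ) (p : Fin n), (a : ℕ) - (p : ℕ) = N → p ∈ NWs u i j ∪ C → p < a → s p ≠ p →
      u (s c₁) ≤ u (s p) → ∃ q ∈ NWs u i j ∪ C, q < a ∧ a < s q ∧ u (s c₁) ≤ u (s q) := by
  intro N
  induction N using Nat.strong_induction_on with
  | _ N ih =>
    intro p hN hp hpa hne hle
    rcases lt_trichotomy (s p) a with h1 | h1 | h1
    · have h2 : s p ∈ NWs u i j := by
        refine (Finset.mem_union.1 (hs.mem hp)).resolve_right fun h3 => ?_
        exact absurd (mem_NEs.1 (hR h3)).1 (not_lt.2 (h1.le.trans haj))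
      have h3 : s (s p) ≠ s p := fun h4 => hne (hs.inj (Finset.mem_union_left _ h2) hp h4)
      have h4 := (hs.up p hp hne).1
      refine ih ((a : ℕ) - (s p : ℕ)) ?_ (s p) rfl (Finset.mem_union_left _ h2) h1 h3
        (hle.trans (hs.le_val (Finset.mem_union_left _ h2)))
      rw [Fin.lt_def] at h1 h4
      omega
    · rw [h1] at hle
      exact absurd hlt (not_lt.2 hle)
    · exact ⟨p, hp, hpa, h1, hle⟩

/-- facts about a leader of a box SW of the box of the linking -/
theorem sw_facts (hC : C ⊆ SWs u i j) (hR : R ⊆ NEs u i j) (hI : Irr u v i j C R)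
    (hs : Mt u (NWs u i j ∪ C) (NWs u i j ∪ R) s) (hL : Ldr u v i' j' G F μ)
    (hsub : ∀ y ∈ G, μ y ≠ y → y ∈ NWs u i j ∪ C ∧ μ y = s y)
    (hi : i' ≤ i) (hj : j' ≤ j) (hne : i' ≠ i ∨ j' ≠ j) :
    C ⊆ SWs u i' j' ∧ rk u i' j' + C.card = rk v i' j' + 1 ∧
      (∀ w ∈ NWs u i' j', u w < i → ∀ c ∈ C, w < c) ∧
      (∀ c ∈ C, ∀ a ∈ NWs u i j ∪ C, c ≤ a → a ≤ j' → u (s c) ≤ u (s a)) := by
  have hCG : ∀ y ∈ G, u y < i' → y ∈ C := by
    intro y hy hlt
    have h2 : μ y ≠ y := by
      intro h3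
      have h4 := hL.hF _ (hL.mt.mem hy)
      rw [h3] at h4
      exact absurd hlt (not_lt.2 h4)
    rcases Finset.mem_union.1 (hsub y hy h2).1 with h3 | h3
    · exact absurd (hlt.trans_le hi) (not_lt.2 (mem_NWs.1 h3).2)
    · exact h3
  have hGsub : G ⊆ NWs u i' j' ∪ C.filter fun c => c ≤ j' ∧ u c < i' := by
    intro y hy
    by_cases h1 : u y < i'
    · exact Finset.mem_union_right _ (Finset.mem_filter.2 ⟨hCG y hy h1, hL.hG y hy, h1⟩)
    · exact Finset.mem_union_left _ (mem_NWs.2 ⟨hL.hG y hy, not_lt.1 h1⟩)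
  have hcard := hL.card
  obtain ⟨hC', hrk'⟩ : C ⊆ SWs u i' j' ∧ rk u i' j' + C.card = rk v i' j' + 1 := by
    refine (hI.1 i' j' hi hj hne).resolve_left ?_
    intro h1
    have h2 := (Finset.card_le_card hGsub).trans (Finset.card_union_le _ _)
    rw [card_NWs] at h2
    omega
  have hG : G = NWs u i' j' ∪ C := by
    apply Finset.eq_of_subset_of_card_le
    · intro y hy
      rcases Finset.mem_union.1 (hGsub hy) with h1 | h1
      · exact Finset.mem_union_left _ h1
      · exact Finset.mem_union_right _ (Finset.mem_filter.1 h1).1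
    · have h1 := Finset.card_union_le (NWs u i' j') C
      rw [card_NWs] at h1
      omega
  have hmemG : ∀ x, x ≤ j' → x ∈ NWs u i j ∪ C → x ∈ G := by
    intro x hx h1
    rw [hG]
    rcases Finset.mem_union.1 h1 with h2 | h2
    · exact Finset.mem_union_left _ (mem_NWs.2 ⟨hx, hi.trans (mem_NWs.1 h2).2⟩)
    · exact Finset.mem_union_right _ h2
  have hμ : ∀ (N : ℕ) (x : Fin n), (x : ℕ) = N → x ∈ G → x ∈ NWs u i j ∪ C → μ x = s x := by
    intro N
    induction N using Nat.strong_induction_on with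
    | _ N ih =>
      intro x hN hxG hx
      by_contra hne
      have h1 : μ x = x := by
        by_contra h2
        exact hne (hsub x hxG h2).2
      have hxF := hL.mt.mem hxG
      rw [h1] at hxF
      have hxN : x ∈ NWs u i j :=
        (Finset.mem_union.1 hx).resolve_right (not_mem_C_of_le hC' (hL.hF x hxF))
      obtain ⟨b, hb, hbx⟩ := hs.surj (Finset.mem_union_left R hxN)
      have h2 : b ≠ x := by
        rintro rfl
        exact hne (h1.trans hbx.symm)
      have h3 := (hs.up b hb (by rw [hbx]; exact h2.symm)).1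
      rw [hbx] at h3
      have hbG : b ∈ G := hmemG b (h3.le.trans (hL.hG x hxG)) hb
      have h4 := ih (b : ℕ) (by
        rw [Fin.lt_def] at h3
        omega) b rfl hbG hb
      rw [hbx, ← h1] at h4
      exact h2 (hL.mt.inj hbG hxG h4)
  have hfix : ∀ y ∈ G, y ∉ NWs u i j ∪ C → μ y = y := by
    intro y hy h1
    by_contra h2
    exact h1 (hsub y hy h2).1
  have hNF : NWs u i' j' ⊆ F := by
    intro y hy
    have hyG : y ∈ G := by
      rw [hG]
      exact Finset.mem_union_left _ hy
    by_cases h1 : y ∈ NWs u i j ∪ C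
    · have hyN : y ∈ NWs u i j :=
        (Finset.mem_union.1 h1).resolve_right (not_mem_C_of_le hC' (mem_NWs.1 hy).2)
      obtain ⟨b, hb, hby⟩ := hs.surj (Finset.mem_union_left R hyN)
      have h2 : b ≤ y := by
        have := hs.le hb
        rwa [hby] at this
      have hbG := hmemG b (h2.trans (mem_NWs.1 hy).1) hb
      have h3 := hL.mt.mem hbG
      rwa [hμ _ b rfl hbG hb, hby] at h3
    · have h2 := hL.mt.mem hyG
      rwa [hfix y hyG h1] at h2
  refine ⟨hC', hrk', ?_, ?_⟩
  -- the points of the strip are to the left of all the starts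
  · intro w hw hwi c hc
    by_contra hcw
    have hcu := (mem_SWs.1 (hC' hc)).2
    have hwu := (mem_NWs.1 hw).2
    have hcw' : c < w := by
      rcases lt_or_eq_of_le (not_lt.1 hcw) with h1 | h1
      · exact h1
      · rw [h1] at hcu
        exact absurd hcu (not_lt.2 hwu)
    have hwG : w ∈ G := by
      rw [hG]
      exact Finset.mem_union_left _ hw
    have hwA : w ∉ NWs u i j ∪ C := by
      intro h1
      rcases Finset.mem_union.1 h1 with h2 | h2
      · exact absurd hwi (not_lt.2 (mem_NWs.1 h2).2)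
      · exact not_mem_C_of_le hC' hwu h2
    have hμw := hfix w hwG hwA
    have hcG : c ∈ G := by
      rw [hG]
      exact Finset.mem_union_right _ hc
    obtain ⟨a, ha, haw, hwa⟩ : ∃ a ∈ G, a < w ∧ w < μ a := by
      by_contra hno
      push Not at hno
      have h1 : (G.filter fun y => y < w).card ≤ ((G.filter fun y => y < w).erase c).card := by
        refine Finset.card_le_card_of_injOn μ ?_ ?_
        · intro y hy
          have hy' := Finset.mem_filter.1 (Finset.mem_coe.1 hy)
          have h2 : μ y ≠ w := by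
            intro h3
            rw [← hμw] at h3
            exact hy'.2.ne (hL.mt.inj hy'.1 hwG h3)
          have h3 : μ y < w := lt_of_le_of_ne (hno y hy'.1 hy'.2) h2
          have h4 := hL.hF _ (hL.mt.mem hy'.1)
          refine Finset.mem_coe.2 (Finset.mem_erase.2 ⟨?_, Finset.mem_filter.2 ⟨?_, h3⟩⟩)
          · intro h5
            rw [h5] at h4
            exact absurd hcu (not_lt.2 h4)
          · rw [hG]
            exact Finset.mem_union_left _ (mem_NWs.2 ⟨h3.le.trans (mem_NWs.1 hw).1, h4⟩)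
        · intro y hy z hz hyz
          exact hL.mt.inj (Finset.mem_filter.1 (Finset.mem_coe.1 hy)).1
            (Finset.mem_filter.1 (Finset.mem_coe.1 hz)).1 hyz
      have h2 : c ∈ G.filter fun y => y < w := Finset.mem_filter.2 ⟨hcG, hcw'⟩
      have h3 := Finset.card_erase_lt_of_mem h2
      omega
    have h1 : μ a ≠ a := (haw.trans hwa).ne'
    obtain ⟨h2, h3⟩ := hsub a ha h1
    refine no_exch hL ha hwG haw hwa ?_ ?_
    · rw [hμw, h3]
      exact hwi.trans_le (val_of_mem_B hR (hs.mem h2))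
    · intro x hx hxw hxu
      rw [hμw] at hxu
      exact hNF (mem_NWs.2 ⟨hL.hG x hx, hwu.trans hxu.le⟩)
  -- the first step of a path is the lowest one to the right of its start
  · intro c hc a ha hca haj
    by_contra hlt
    rw [not_le] at hlt
    have hcA : c ∈ NWs u i j ∪ C := Finset.mem_union_right _ hc
    have hca' : c < a := by
      refine lt_of_le_of_ne hca ?_
      rintro rfl
      exact lt_irrefl _ hlt
    have hcne : s c ≠ c := by
      intro h1
      have h2 := val_of_mem_B hR (hs.mem hcA)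
      rw [h1] at h2
      exact absurd (mem_SWs.1 (hC hc)).2 (not_lt.2 h2)
    obtain ⟨p, hp, hpa, hap, hle⟩ := jump hs hR (haj.trans hj)
      ((hs.le_val ha).trans_lt hlt) _ c rfl hcA hca' hcne le_rfl
    have hpG : p ∈ G := hmemG p (hpa.le.trans haj) hp
    have haG : a ∈ G := hmemG a haj ha
    refine no_exch hL hpG haG hpa ?_ ?_ ?_
    · rw [hμ _ p rfl hpG hp]
      exact hap
    · rw [hμ _ p rfl hpG hp, hμ _ a rfl haG ha]
      exact hlt.trans_le hle
    · intro x hx hxa hxu
      rw [hμ _ a rfl haG ha] at hxu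
      exact hNF (mem_NWs.2 ⟨hL.hG x hx,
        (hi.trans (val_of_mem_B hR (hs.mem ha))).trans hxu.le⟩)

/-- facts about a leader of a box NE of the box of the linking -/
theorem ne_facts (hC : C ⊆ SWs u i j) (hR : R ⊆ NEs u i j) (hI : Irr u v i j C R)
    (hs : Mt u (NWs u i j ∪ C) (NWs u i j ∪ R) s) (hL : Ldr u v i' j' G F μ)
    (hsub : ∀ y ∈ G, μ y ≠ y → y ∈ NWs u i j ∪ C ∧ μ y = s y)
    (hi : i ≤ i') (hj : j ≤ j') (hne : i' ≠ i ∨ j' ≠ j) :
    R ⊆ NEs u i' j' ∧ rk u i' j' + R.card = rk v i' j' + 1 ∧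
      (∀ w ∈ NWs u i' j', j < w → ∀ r ∈ R, u r < u w) ∧
      (∀ b ∈ NWs u i j ∪ C, s b ∈ R → ∀ a ∈ NWs u i j ∪ C, u (s a) ≤ u (s b) → i' ≤ u (s a) →
        a ≤ b) := by
  have hCR := card_CR hC hR hs
  have hRF : ∀ x ∈ F, j' < x → x ∈ R := by
    intro x hx hlt
    obtain ⟨y, hy, rfl⟩ := hL.mt.surj hx
    have h2 : μ y ≠ y := by
      intro h3
      rw [h3] at hlt
      exact absurd hlt (not_lt.2 (hL.hG y hy))
    obtain ⟨h3, h4⟩ := hsub y hy h2
    rw [h4] at hlt ⊢
    rcases Finset.mem_union.1 (hs.mem h3) with h5 | h5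
    · exact absurd (hlt.trans_le ((mem_NWs.1 h5).1.trans hj)) (lt_irrefl _)
    · exact h5
  have hFsub : F ⊆ NWs u i' j' ∪ R.filter fun r => j' < r ∧ i' ≤ u r := by
    intro x hx
    by_cases h1 : j' < x
    · exact Finset.mem_union_right _ (Finset.mem_filter.2 ⟨hRF x hx h1, h1, hL.hF x hx⟩)
    · exact Finset.mem_union_left _ (mem_NWs.2 ⟨not_lt.1 h1, hL.hF x hx⟩)
  have hcard := hL.card
  have hcard' := hL.mt.card
  obtain ⟨hR', hrk'⟩ : R ⊆ NEs u i' j' ∧ rk u i' j' + R.card = rk v i' j' + 1 := by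
    refine (hI.2 i' j' hi hj hne).resolve_left ?_
    intro h1
    have h2 := (Finset.card_le_card hFsub).trans (Finset.card_union_le _ _)
    rw [card_NWs] at h2
    omega
  have hC' : C ⊆ SWs u i' j' := fun c hc =>
    mem_SWs.2 ⟨(mem_SWs.1 (hC hc)).1.trans hj, (mem_SWs.1 (hC hc)).2.trans_le hi⟩
  have hF : F = NWs u i' j' ∪ R := by
    apply Finset.eq_of_subset_of_card_le
    · intro y hy
      rcases Finset.mem_union.1 (hFsub hy) with h1 | h1
      · exact Finset.mem_union_left _ h1
      · exact Finset.mem_union_right _ (Finset.mem_filter.1 h1).1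
    · have h1 := Finset.card_union_le (NWs u i' j') R
      rw [card_NWs] at h1
      omega
  have hmemF : ∀ x, i' ≤ u x → x ∈ NWs u i j ∪ R → x ∈ F := by
    intro x hx h1
    rw [hF]
    rcases Finset.mem_union.1 h1 with h2 | h2
    · exact Finset.mem_union_left _ (mem_NWs.2 ⟨(mem_NWs.1 h2).1.trans hj, hx⟩)
    · exact Finset.mem_union_right _ h2
  have hμ : ∀ (N : ℕ) (x : Fin n), n - (x : ℕ) = N → x ∈ F → ∀ b ∈ NWs u i j ∪ C, s b = x →
      b ∈ G ∧ μ b = s b := by
    intro N
    induction N using Nat.strong_induction_on with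
    | _ N ih =>
      intro x hN hxF b hb hbx
      obtain ⟨b', hb', hbx'⟩ := hL.mt.surj hxF
      by_cases h1 : b' = x
      · subst h1
        have h2 : b' ∉ R := not_mem_R_of_le hR' (hL.hG b' hb')
        have h3 := hs.mem hb
        rw [hbx] at h3
        have h4 : b' ∈ NWs u i j := (Finset.mem_union.1 h3).resolve_right h2
        have h5 : b = b' := by
          by_contra h6
          have h7 : s b' ≠ b' := by
            intro h8
            exact h6 (hs.inj hb (Finset.mem_union_left _ h4) (by rw [hbx, h8]))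
          have h8 := hs.up b' (Finset.mem_union_left _ h4) h7
          have h9 : s b' ∈ F := hmemF _ ((hL.hF b' hxF).trans h8.2.le)
            (hs.mem (Finset.mem_union_left _ h4))
          have h10 := ih (n - (s b' : ℕ)) (by
            have h11 := h8.1
            have h12 := (s b').isLt
            rw [Fin.lt_def] at h11
            omega) (s b') rfl h9 b' (Finset.mem_union_left _ h4) rfl
          rw [hbx'] at h10
          exact h7 h10.2.symm
        rw [h5] at hbx ⊢
        exact ⟨hb', hbx'.trans hbx.symm⟩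
      · obtain ⟨h2, h3⟩ := hsub b' hb' (by rw [hbx']; exact Ne.symm h1)
        have h4 : b' = b := hs.inj h2 hb (by rw [← h3, hbx', hbx])
        rw [← h4]
        exact ⟨hb', h3⟩
  -- the points of the strip are fixed
  have hfix' : ∀ w ∈ NWs u i' j', j < w → w ∈ G ∧ μ w = w := by
    intro w hw hjw
    have hwF : w ∈ F := by
      rw [hF]
      exact Finset.mem_union_left _ hw
    obtain ⟨b, hb, hbw⟩ := hL.mt.surj hwF
    by_cases h1 : b = w
    · subst h1
      exact ⟨hb, hbw⟩
    · exfalso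
      obtain ⟨h2, h3⟩ := hsub b hb (by rw [hbw]; exact Ne.symm h1)
      have h4 := hs.mem h2
      rw [← h3, hbw] at h4
      rcases Finset.mem_union.1 h4 with h5 | h5
      · exact absurd hjw (not_lt.2 (mem_NWs.1 h5).1)
      · exact not_mem_R_of_le hR' (mem_NWs.1 hw).1 h5
  refine ⟨hR', hrk', ?_, ?_⟩
  -- and above all the ends
  · intro w hw hjw r hr
    by_contra hrw
    have hrj := (mem_NEs.1 (hR' hr)).1
    have hwj := (mem_NWs.1 hw).1
    have hrw' : u w < u r := by
      rcases lt_or_eq_of_le (not_lt.1 hrw) with h1 | h1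
      · exact h1
      · rw [u.injective h1] at hwj
        exact absurd hrj (not_lt.2 hwj)
    obtain ⟨hwG, hμw⟩ := hfix' w hw hjw
    have hrF : r ∈ F := by
      rw [hF]
      exact Finset.mem_union_right _ hr
    obtain ⟨a, ha, har⟩ := hL.mt.surj hrF
    have h1 : μ a ≠ a := by
      rw [har]
      exact ((hL.hG a ha).trans_lt hrj).ne'
    obtain ⟨h2, h3⟩ := hsub a ha h1
    refine no_exch hL ha hwG ((pos_of_mem_A hC h2).trans_lt hjw) ?_ ?_ ?_
    · rw [har]
      exact hwj.trans_lt hrj
    · rw [hμw, har]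
      exact hrw'
    · intro x hx hxw hxu
      rw [hμw] at hxu
      rw [hF]
      exact Finset.mem_union_left _ (mem_NWs.2 ⟨hL.hG x hx, (mem_NWs.1 hw).2.trans hxu.le⟩)
  -- the last step of a path is the rightmost one below its end
  · intro b hb hbR a ha hab hia
    by_contra hba
    rw [not_le] at hba
    have hbr := mem_NEs.1 (hR' hbR)
    obtain ⟨hbG, hμb⟩ := hμ _ (s b) rfl (hmemF _ hbr.2 (hs.mem hb)) b hb rfl
    obtain ⟨haG, hμa⟩ := hμ _ (s a) rfl (hmemF _ hia (hs.mem ha)) a ha rfl
    have hne' : s a ≠ s b := fun h1 => hba.ne' (hs.inj ha hb h1)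
    refine no_exch hL hbG haG hba ?_ ?_ ?_
    · rw [hμb]
      exact (hL.hG a haG).trans_lt hbr.1
    · rw [hμb, hμa]
      exact lt_of_le_of_ne hab fun h1 => hne' (u.injective h1)
    · intro x hx hxa hxu
      rw [hμa] at hxu
      rw [hF]
      exact Finset.mem_union_left _ (mem_NWs.2 ⟨hL.hG x hx, hia.trans hxu.le⟩)

/-- the moved points of a box are moved points of every box SE of it -/
theorem Us_mono (hC : C ⊆ SWs u i j) (hR : R ⊆ NEs u i j) (hC' : C ⊆ SWs u i' j')
    (hR' : R ⊆ NEs u i' j') (hi : i' ≤ i) (hj : j ≤ j') : Us u C R i j ⊆ Us u C R i' j' := by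
  have hN : NWs u i j ⊆ NWs u i' j' := fun x hx =>
    mem_NWs.2 ⟨(mem_NWs.1 hx).1.trans hj, hi.trans (mem_NWs.1 hx).2⟩
  intro x hx
  obtain ⟨hx, t, ht, hne⟩ := mem_Us.1 hx
  have hCR := card_CR hC hR ht
  refine mem_Us.2 ⟨hN hx, fun y => if y ∈ NWs u i j ∪ C then t y else y, ?_, ?_⟩
  · refine Mt.of_surj ?_ ?_ ?_
    · rw [Finset.card_union_of_disjoint, Finset.card_union_of_disjoint, hCR]
      · rw [Finset.disjoint_left]
        intro y hy hy'
        exact not_mem_R_of_le hR' (mem_NWs.1 hy).1 hy'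
      · rw [Finset.disjoint_left]
        intro y hy hy'
        exact not_mem_C_of_le hC' (mem_NWs.1 hy).2 hy'
    · intro b hb
      by_cases h1 : b ∈ NWs u i j ∪ R
      · obtain ⟨a, ha, hab⟩ := ht.surj h1
        exact ⟨a, Finset.union_subset_union_left hN ha, by simp only [if_pos ha]; exact hab⟩
      · have hbN : b ∈ NWs u i' j' :=
          (Finset.mem_union.1 hb).resolve_right fun h2 => h1 (Finset.mem_union_right _ h2)
        refine ⟨b, Finset.mem_union_left _ hbN, ?_⟩
        have h2 : b ∉ NWs u i j ∪ C := by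
          intro h3
          rcases Finset.mem_union.1 h3 with h4 | h4
          · exact h1 (Finset.mem_union_left _ h4)
          · exact not_mem_C_of_le hC' (mem_NWs.1 hbN).2 h4
        simp only [if_neg h2]
    · intro a ha hne'
      by_cases h1 : a ∈ NWs u i j ∪ C
      · simp only [if_pos h1] at hne' ⊢
        exact ht.up a h1 hne'
      · simp only [if_neg h1] at hne'
        exact absurd rfl hne'
  · simp only [if_pos (Finset.mem_union_left C hx)]
    exact hne

/-- the lex-maximal linking of its length is the largest matching, or of one of the two types, or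
there are linkings of two smaller lengths -/
theorem types (hC : C ⊆ SWs u i j) (hR : R ⊆ NEs u i j) (hm : C.card = R.card)
    (hg : rk u i j + C.card = rk v i j + 1) (hI : Irr u v i j C R) (huv : BruhatLE u v)
    (hH : Hom u v) (hL : Link u v i j C R s)
    (hlex : ∀ t, Link u v i j C R t → mv (NWs u i j ∪ C) t = mv (NWs u i j ∪ C) s →
      ¬ Lt u (NWs u i j ∪ C) s t) :
    (∀ t, Mt u (NWs u i j ∪ C) (NWs u i j ∪ R) t → ¬ Lt u (NWs u i j ∪ C) s t) ∨
      (∃ t t', Link u v i j C R t ∧ Link u v i j C R t' ∧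
        mv (NWs u i j ∪ C) t' < mv (NWs u i j ∪ C) t ∧
        mv (NWs u i j ∪ C) t < mv (NWs u i j ∪ C) s) ∨
      (∃ i' j', STy u v i j C s i' j') ∨ ∃ i' j', NTy u v i j C R s i' j' := by
  obtain ⟨i', j', G, F, μ, hM, hsub⟩ := Pool.Agent.H94.KL.leader_of_lexmax huv hH hC hR hm hg hL hlex
  have hs := mt_of_link hL
  -- the same column, or the same row: the largest matching
  have hS : i' ≤ i → j' = j → (i' ≠ i ∨ j' ≠ j) →
      ∀ t, Mt u (NWs u i j ∪ C) (NWs u i j ∪ R) t → ¬ Lt u (NWs u i j ∪ C) s t := by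
    intro h1 h2 h3
    refine case_SW hC hR hI hs hM hsub h1 h2.le h3 fun h4 h5 _ => ?_
    exact Finset.card_le_card (Us_mono hC hR h4 h5 h1 h2.ge)
  have hN : j ≤ j' → i' = i → (i' ≠ i ∨ j' ≠ j) →
      ∀ t, Mt u (NWs u i j ∪ C) (NWs u i j ∪ R) t → ¬ Lt u (NWs u i j ∪ C) s t := by
    intro h1 h2 h3
    refine case_NE hC hR hI hs hM hsub h2.ge h1 h3 fun h4 h5 _ => ?_
    exact Finset.card_le_card (Us_mono hC hR h4 h5 h2.le h1)
  by_cases hself : i' = i ∧ j' = j
  · left
    obtain ⟨rfl, rfl⟩ := hself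
    exact case_self hC hR hg hs hM hsub
  have hne : i' ≠ i ∨ j' ≠ j := by tauto
  rcases lt_trichotomy j' j with h2 | h2 | h2
  · rcases le_total i i' with h1 | h1
    · exact (case_NW (rk_of_link hL) hs hM hsub h1 h2.le hne).elim
    · right; right; left
      obtain ⟨a1, a2, a3, a4⟩ := sw_facts hC hR hI hs hM hsub h1 h2.le hne
      exact ⟨i', j', h1, h2, a1, a2, a3, fun c hc _ a ha h3 h4 => a4 c hc a ha h3 h4⟩
  · rcases le_total i i' with h1 | h1
    · exact (case_NW (rk_of_link hL) hs hM hsub h1 h2.le hne).elim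
    · left
      exact hS h1 h2 hne
  · rcases lt_trichotomy i' i with h1 | h1 | h1
    · rcases Pool.Agent.H49.KL.count_C hC hR hm hg huv hI h1 h2 hs hM hsub with h5 | ⟨h5, h6⟩
      · exact Or.inl h5
      · right; left
        exact core hC hR hg hI huv hH h1 h2 hL hlex hM h5 h6
    · left
      exact hN h2.le h1 hne
    · right; right; right
      obtain ⟨a1, a2, a3, a4⟩ := ne_facts hC hR hI hs hM hsub h1.le h2.le hne
      exact ⟨i', j', h1, h2.le, a1, a2, a3, fun b hb h3 _ a ha h4 h5 => a4 b hb h3 a ha h4 h5⟩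

end Pool.Agent.H44.KL
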