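import Pool.Agent.H44.KL.UAsm
import Pool.Agent.H86.KL.UFacts
import Pool.Agent.H38.KLU.Wrap
import Pool.Agent.H83.KLU.Last

/-!
# Homogeneity implies that every irreducible box is uniform
-/

set_option autoImplicit false

open Pool.Agent.H30.KL Pool.Agent.H94.KL Pool.Agent.H61.KL Pool.Agent.H86.KL

namespace Pool.Agent.H44.KL

variable {n : ℕ} {u v : Equiv.Perm (Fin n)} {i j : Fin n} {C R : Finset (Fin n)}

theorem same_first_of_ex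
    (hex : ∀ (u v : Equiv.Perm (Fin n)) (i i' j' c₁ h₁ : Fin n) (C : Finset (Fin n)),
      BruhatLE u v → i' ≤ i → C ⊆ SWs u i' j' → c₁ ∈ C → (∀ c ∈ C, c₁ ≤ c) →
      rk u i' j' + C.card = rk v i' j' + 1 → i ≤ u h₁ →
      (∀ I, i ≤ I → I ≤ u h₁ → rk u I j' + C.card ≤ rk v I j') →
      (∀ w ∈ NWs u i' j', u w < i → w < c₁) →
      (∀ w, c₁ < w → w ≤ j' → i ≤ u w → u h₁ ≤ u w) →
      ∃ y, y < c₁ ∧ i' ≤ u y ∧ u y < i ∧ y ≤ j' ∧ Cov u v i y c₁ h₁) :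
    Pool.Agent.H83.KLU.SameFirst n := by
  intro u v i j C R s i' j' c₁ huv hC hR hm hg hI hL hS hc₁ hmin hlow ρ ρ' hρ hρ' h1 h2
  have hM := mt_of_link hL
  have hcA : c₁ ∈ NWs u i j ∪ C := Finset.mem_union_right _ hc₁
  obtain ⟨y, hy1, hy2, hy3, hy4, hy5⟩ := hex u v i i' j' c₁ (s c₁) C huv hS.hi hS.hC hc₁ hmin
    hS.hg (val_of_mem_B hR (hM.mem hcA))
    (fun I h3 h4 => hS.cap hC hM (rk_of_link hL) hc₁ hmin h3 h4)
    (fun w h3 h4 => hS.left' hc₁ h3 h4)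
    (fun w h3 h4 h5 => hS.low2 hM hc₁ hmin h3 h4 h5)
  exact same_first_of_cov huv hC hR hI hc₁ hmin hy1 hy3
    ((mem_SWs.1 (hS.hC hc₁)).2.trans_le hy2) hy5 hlow hρ hρ' h1 h2

theorem nec_unif_of (huv : BruhatLE u v) (hH : Hom u v)
    (hfirst : Pool.Agent.H83.KLU.SameFirst n)
    (hlast : ∀ (i j : Fin n) (C R : Finset (Fin n)), C ⊆ SWs u i j → R ⊆ NEs u i j →
      C.card = R.card → rk u i j + C.card = rk v i j + 1 → Irr u v i j C R →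
      ∀ r₁ ∈ R, (∀ r ∈ R, u r ≤ u r₁) →
      ∀ s, Link u v i j C R s → LexMax u v i j C R s → ∀ b ∈ NWs u i j ∪ C, s b = r₁ →
      (Tight u i j C R s ∨ (∃ i' j', NTy u v i j C R s i' j') ∧
        ∀ ρ, Link u v i j C R ρ → ρ b = r₁ → mv (NWs u i j ∪ C) ρ = mv (NWs u i j ∪ C) s) →
      ∀ ρ, Link u v i j C R ρ → ∀ b' ∈ NWs u i j ∪ C, ρ b' = r₁ → b' ≤ b) : Unif u v := by
  apply unif_of_step
  intro i j
  have hF : ∀ (C R : Finset (Fin n)), C ⊆ SWs u i j → R ⊆ NEs u i j → C.card = R.card →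
      rk u i j + C.card = rk v i j + 1 → Irr u v i j C R →
      ∀ c₁ ∈ C, (∀ c ∈ C, c₁ ≤ c) → LowC u v i j C R c₁ →
      ∀ s, Link u v i j C R s → (∃ i' j', STy u v i j C s i' j') →
      ∀ ρ ρ', Link u v i j C R ρ → Link u v i j C R ρ' → ρ c₁ = s c₁ → ρ' c₁ = s c₁ →
      mv (NWs u i j ∪ C) ρ = mv (NWs u i j ∪ C) ρ' := by
    intro C R hC hR hm hg hI c₁ hc₁ hmin hlc s hs ⟨i', j', hS⟩ ρ ρ' hρ hρ' h1 h2
    exact hfirst u v i j C R s i' j' c₁ huv hC hR hm hg hI hs hS hc₁ hmin hlc ρ ρ' hρ hρ' h1 h2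
  have hF' : ∀ (C R : Finset (Fin n)), C ⊆ SWs u i j → R ⊆ NEs u i j → C.card = R.card →
      rk u i j + C.card = rk v i j + 1 → Irr u v i j C R →
      ∀ r₁ ∈ R, (∀ r ∈ R, u r ≤ u r₁) → LowR u v i j C R r₁ →
      ∀ s, Link u v i j C R s → (∃ i' j', NTy u v i j C R s i' j') →
      ∀ b ∈ NWs u i j ∪ C, s b = r₁ →
      ∀ ρ ρ', Link u v i j C R ρ → Link u v i j C R ρ' → ρ b = r₁ → ρ' b = r₁ →
      mv (NWs u i j ∪ C) ρ = mv (NWs u i j ∪ C) ρ' := by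
    intro C R hC hR hm hg hI r₁ hr₁ hmax hlr s hs ⟨i', j', hN⟩ b hb hsb ρ ρ' hρ hρ' h1 h2
    exact Pool.Agent.H83.KLU.same_last hfirst huv hC hR hm hg hI hs hN hr₁ hmax hb hsb hlr hρ hρ'
      h1 h2
  have hA : ∀ (C R : Finset (Fin n)), C ⊆ SWs u i j → R ⊆ NEs u i j → C.card = R.card →
      rk u i j + C.card = rk v i j + 1 → Irr u v i j C R →
      ∀ c₁ ∈ C, (∀ c ∈ C, c₁ ≤ c) → LowC u v i j C R c₁ →
      ∀ s, Link u v i j C R s → LexMax u v i j C R s →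
      (Tight u i j C R s ∨ ∃ i' j', STy u v i j C s i' j') →
      (∀ ρ, Link u v i j C R ρ → u (s c₁) ≤ u (ρ c₁)) ∧
        (2 ≤ C.card → ∀ b ∈ NWs u i j ∪ R, c₁ < b → u (s c₁) ≤ u b) := by
    intro C R hC hR hm hg hI c₁ hc₁ hmin hlc s hs hlex hT
    refine Pool.Agent.H38.KLU.first_low hC hR hg hI huv hs hlex hc₁ hmin ?_
    rcases hT with hT | hT
    · exact Or.inl hT
    · exact Or.inr ⟨hT, fun ρ hρ h1 => hF C R hC hR hm hg hI c₁ hc₁ hmin hlc s hs hT ρ s hρ hs h1 rfl⟩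
  have hA' : ∀ (C R : Finset (Fin n)), C ⊆ SWs u i j → R ⊆ NEs u i j → C.card = R.card →
      rk u i j + C.card = rk v i j + 1 → Irr u v i j C R →
      ∀ r₁ ∈ R, (∀ r ∈ R, u r ≤ u r₁) → LowR u v i j C R r₁ →
      ∀ s, Link u v i j C R s → LexMax u v i j C R s →
      (Tight u i j C R s ∨ ∃ i' j', NTy u v i j C R s i' j') →
      ∀ b ∈ NWs u i j ∪ C, s b = r₁ →
      ∀ ρ, Link u v i j C R ρ → ∀ b' ∈ NWs u i j ∪ C, ρ b' = r₁ → b' ≤ b := by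
    intro C R hC hR hm hg hI r₁ hr₁ hmax hlr s hs hlex hT b hb hsb
    refine hlast i j C R hC hR hm hg hI r₁ hr₁ hmax s hs hlex b hb hsb ?_
    rcases hT with hT | hT
    · exact Or.inl hT
    · exact Or.inr ⟨hT, fun ρ hρ h1 =>
        hF' C R hC hR hm hg hI r₁ hr₁ hmax hlr s hs hT b hb hsb ρ s hρ hs h1 hsb⟩
  refine step_of_cases huv hH
    (fun C R hC hR hm hg hI c₁ hc₁ hmin hlc s hs hlex hT =>
      (hA C R hC hR hm hg hI c₁ hc₁ hmin hlc s hs hlex hT).1) hA' hF hF' ?_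
  intro C R hC hR hm hg hI c₁ hc₁ hmin hlc r₁ hr₁ hmax hlr s hs ls hS t ht lt hN
  by_contra hne
  obtain ⟨b, hb, htb⟩ := (mt_of_link ht).surj (Finset.mem_union_right (NWs u i j) hr₁)
  obtain ⟨h1, h2⟩ := hA C R hC hR hm hg hI c₁ hc₁ hmin hlc s hs ls (Or.inr hS)
  exact Pool.Agent.H38.KLU.mixed hC hR hg hI huv hH hs ht hc₁ hmin h1 h2 hr₁ hmax hb htb
    (hA' C R hC hR hm hg hI r₁ hr₁ hmax hlr t ht lt (Or.inr hN) b hb htb)
    (fun ρ hρ h3 => hF C R hC hR hm hg hI c₁ hc₁ hmin hlc s hs hS ρ s hρ hs h3 rfl)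
    (fun ρ hρ h3 => hF' C R hC hR hm hg hI r₁ hr₁ hmax hlr t ht hN b hb htb ρ t hρ ht h3 htb) hne

end Pool.Agent.H44.KL
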