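import Pool.Agent.H44.KL.UnifAux
import Pool.Agent.H60.KLU.ExY

/-!
# Linkings with the same first step have the same length
-/

set_option autoImplicit false

open Pool.Agent.H30.KL Pool.Agent.H86.KL

namespace Pool.Agent.H44.KL

theorem same_first (n : ℕ) : Pool.Agent.H83.KLU.SameFirst n :=
  same_first_of_ex fun _ _ _ _ _ _ _ _ huv hi hC hc₁ _ hg hh hcap hleft hlow =>
    Pool.Agent.H60.KLU.exists_y huv hi hC hc₁ hg hh hcap hleft hlow

end Pool.Agent.H44.KL
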