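import Pool.Agent.H44.KL.UnifFirst
import Pool.Agent.H38.KLU.LemB

/-!
# A homogeneous Kazhdan–Lusztig ideal has uniform irreducible boxes
-/

set_option autoImplicit false

open Pool.Agent.H30.KL Pool.Agent.H86.KL

namespace Pool.Agent.H44.KL

/-- if `I_{u,v}` is homogeneous, then for every box and every irreducible pair all the linkings have the same number of steps -/
theorem nec_unif {n : ℕ} {u v : Equiv.Perm (Fin n)} (huv : BruhatLE u v) (h : Hom u v) :
    Unif u v :=
  nec_unif_of huv h (same_first n) fun _ _ _ _ hC hR _ hg hI _ hr₁ hmax _ hs ls _ hb hsb hT =>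
    Pool.Agent.H38.KLU.last_low huv hC hR hg hI hr₁ hmax hs ls hb hsb hT

end Pool.Agent.H44.KL
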